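import Pool.Agent.Y6.Stm2

/-!
From the Fourier side to the physical side: decimated Navier-Stokes equations.
-/

open MeasureTheory Set Filter Topology
open scoped ENNReal NNReal ContDiff ComplexConjugate

set_option autoImplicit false

namespace Pool.Agent.Y154.NS

open Pool.Agent.H356R3.NS Pool.Agent.Y6
open Pool.Agent.H356R3.NS (K sq)

/-- The Fourier coefficients of a Fourier series. -/
theorem int_SF {c : SFam} (hc : RD c) (t : ℝ) (k : Fin 3 → ℤ) :
    ∫ x in Q3, SF c (t, x) * ex (-k) x = c k t := by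
  obtain ⟨b, hb, h⟩ := hc.summ
  have hcont : ∀ l, Continuous fun x => c l t * ex l x * ex (-k) x := fun l =>
    (continuous_const.mul (ex_cont l)).mul (ex_cont _)
  have hn : ∀ l x, ‖c l t * ex l x * ex (-k) x‖ ≤ b l := by
    intro l x
    rw [norm_mul, norm_mul, norm_ex, norm_ex, mul_one, mul_one]
    exact h l t
  have hint : ∀ l, Integrable (fun x => c l t * ex l x * ex (-k) x) (volume.restrict Q3) := fun l =>
    (hcont l).continuousOn.integrableOn_compact isCompact_Icc
  have h1 := hasSum_integral_of_summable_integral_norm (μ := volume.restrict Q3) hint (by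
    refine hb.of_nonneg_of_le (fun l => integral_nonneg fun _ => norm_nonneg _) fun l => ?_
    calc ∫ x in Q3, ‖c l t * ex l x * ex (-k) x‖ ≤ ∫ _x in Q3, b l :=
          integral_mono (hint l).norm (integrable_const _) (hn l)
      _ = b l := by
          rw [integral_const]
          simp [Measure.real, Q3_vol])
  have h2 : ∀ x, SF c (t, x) * ex (-k) x = ∑' l, c l t * ex l x * ex (-k) x := by
    intro x
    unfold SF
    rw [tsum_mul_right]
  simp_rw [h2]
  rw [← h1.tsum_eq, tsum_eq_single k]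
  · have h3 : ∀ x, c k t * ex k x * ex (-k) x = c k t * ex 0 x := by
      intro x
      rw [mul_assoc, ← ex_add, add_neg_cancel]
    simp_rw [h3]
    rw [integral_const_mul, ex_int, if_pos rfl, mul_one]
  · intro l hl
    have h3 : ∀ x, c l t * ex l x * ex (-k) x = c l t * ex (l - k) x := by
      intro x
      rw [mul_assoc, ← ex_add, sub_eq_add_neg]
    simp_rw [h3]
    rw [integral_const_mul, ex_int, if_neg (sub_ne_zero.2 hl), mul_zero]

theorem SF_cont_x {c : SFam} (hc : RD c) (t : ℝ) : Continuous fun x => SF c (t, x) := by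
  obtain ⟨b, hb, h⟩ := hc.summ
  unfold SF
  refine continuous_tsum (u := b) (fun k => ?_) hb fun k x => ?_
  · exact (continuous_const.mul (ex_cont k) : Continuous fun x => c k t * ex k x)
  · rw [norm_mul, norm_ex, mul_one]
    exact h k t

/-- The Fourier coefficients of the real part of a Fourier series. -/
theorem int_SF_re {c : SFam} (hc : RD c) (t : ℝ) (k : Fin 3 → ℤ) :
    ∫ x in Q3, (((SF c (t, x)).re : ℝ) : ℂ) * ex (-k) x = (c k t + star (c (-k) t)) / 2 := by
  have hcx := SF_cont_x hc t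
  have h1 : ∀ x, (((SF c (t, x)).re : ℝ) : ℂ) * ex (-k) x
      = (SF c (t, x) * ex (-k) x + conj (SF c (t, x) * ex (-(-k)) x)) / 2 := by
    intro x
    have e1 : (((SF c (t, x)).re : ℝ) : ℂ) = (SF c (t, x) + conj (SF c (t, x))) / 2 := by
      rw [Complex.add_conj]
      push_cast
      ring
    have e2 : conj (ex (-(-k)) x) = ex (-k) x := by
      rw [← Complex.star_def, ← ex_neg, neg_neg]
    rw [e1, map_mul, e2]
    ring
  have hi1 : Integrable (fun x => SF c (t, x) * ex (-k) x) (volume.restrict Q3) :=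
    (hcx.mul (ex_cont _)).continuousOn.integrableOn_compact isCompact_Icc
  have hi2 : Integrable (fun x => conj (SF c (t, x) * ex (-(-k)) x)) (volume.restrict Q3) :=
    (Complex.continuous_conj.comp (hcx.mul (ex_cont _))).continuousOn.integrableOn_compact isCompact_Icc
  simp_rw [h1]
  rw [integral_div, integral_add hi1 hi2, int_SF hc, integral_conj, int_SF hc, Complex.star_def]

/-- The indicator function of the set of modes. -/
noncomputable def chi (Q : Set (Fin 3 → ℤ)) (k : Fin 3 → ℤ) : ℂ :=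
  haveI := Classical.decPred (· ∈ Q)
  if k ∈ Q then 1 else 0

theorem chi_mem {Q : Set (Fin 3 → ℤ)} {k : Fin 3 → ℤ} (h : k ∈ Q) : chi Q k = 1 := by
  simp [chi, h]

theorem chi_not {Q : Set (Fin 3 → ℤ)} {k : Fin 3 → ℤ} (h : k ∉ Q) : chi Q k = 0 := by
  simp [chi, h]

theorem norm_chi (Q : Set (Fin 3 → ℤ)) (k : Fin 3 → ℤ) : ‖chi Q k‖ ≤ 1 * pw k ^ 0 := by
  rw [pow_zero, mul_one]
  by_cases h : k ∈ Q
  · simp [chi_mem h]
  · simp [chi_not h]

theorem q_rd {c : ℝ} {Q : Set (Fin 3 → ℤ)} {V : (Fin 3 → ℤ) → C3} {u : (Fin 3 → ℤ) → ℝ → C3}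
    (h : QSol c Q V u) (i : Fin 3) : RD (cf' u i) := by
  intro m
  obtain ⟨C, hC⟩ := h.rd (m + 4)
  refine ⟨fun k => C * (1 / pw k) ^ 4, (summ_of_bound m (fun k => hC k 0)).1, fun k t => ?_⟩
  refine le_trans ?_ ((summ_of_bound m (fun k => hC k t)).2 k)
  exact mul_le_mul_of_nonneg_left (norm_le_pi_norm _ i) (pow_pos (pw_pos k) m).le

theorem RH_eq (c : ℝ) (u : (Fin 3 → ℤ) → ℝ → C3) (k : Fin 3 → ℤ) (t : ℝ) (i : Fin 3) :
    RH c (fun k => u k t) k i = dU c u i k t := by
  unfold RH dU Bf cvv cv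
  simp only [Pi.add_apply, Pi.smul_apply, Complex.real_smul]
  push_cast
  ring

theorem q_deriv {c : ℝ} {Q : Set (Fin 3 → ℤ)} {V : (Fin 3 → ℤ) → C3} {u : (Fin 3 → ℤ) → ℝ → C3}
    (h : QSol c Q V u) (i : Fin 3) (k : Fin 3 → ℤ) (t : ℝ) (ht : 0 < t) :
    HasDerivAt (cf' u i k) (chi Q k * dU c u i k t) t := by
  by_cases hk : k ∈ Q
  · have h1 := (hasDerivAt_pi.1 (h.ode k hk t ht)) i
    rw [chi_mem hk, one_mul, ← RH_eq]
    exact h1
  · have h1 : cf' u i k = fun _ => 0 := by
      funext s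
      unfold cf'
      rw [h.zero k hk s]
      rfl
    rw [h1, chi_not hk, zero_mul]
    exact hasDerivAt_const _ _

theorem q_TT {c : ℝ} {Q : Set (Fin 3 → ℤ)} {V : (Fin 3 → ℤ) → C3} {u : (Fin 3 → ℤ) → ℝ → C3}
    (h : QSol c Q V u) (n : ℕ) : ∀ i : Fin 3, TT n (cf' u i) := by
  have hc : ∀ i k, Continuous (cf' u i k) := fun i k => (continuous_apply i).comp (h.cf k)
  induction n with
  | zero => intro i; exact ⟨q_rd h i, hc i⟩
  | succ n ih =>
    intro i
    exact ⟨q_rd h i, hc i, fun k t => chi Q k * dU c u i k t, fun k t ht => q_deriv h i k t ht,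
      TT.mul (norm_chi Q) (TT_dU ih i)⟩

theorem phys_of (hdata : St_data) : St_phys := by
  intro ν Q v u hν hQ h0Q hv h
  set c : ℝ := 4 * Real.pi ^ 2 * ν with hc
  have hT : ∀ n i, TT n (cf' u i) := fun n i => q_TT h n i
  have hP : ∀ n, TT n (PF u) := fun n => TT_PF (hT n)
  have hdT : ∀ n i, TT n (fun k t => chi Q k * dU c u i k t) := fun n i =>
    TT.mul (norm_chi Q) (TT_dU (hT n) i)
  have hsym : ∀ i k t, cf' u i (-k) t = star (cf' u i k t) := fun i k t => h.sym t k i
  have hdiv := h.div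
  have hre : ∀ i t x, (GS 0 (cf' u i) t x).im = 0 := fun i t x => SF_real (hsym i) _
  have hGS : ∀ (d : SFam) (t : ℝ) (x : E3), GS 0 d t x = SF d (t, x) := by
    intro d t x
    unfold GS
    rw [smul_zero, sub_zero]
  refine ⟨fun t x i => (GS 0 (cf' u i) t x).re, fun t x => (GS 0 (PF u) t x).re,
    ?_, ?_, ?_, ?_, ?_, ?_, ?_, ?_⟩
  · rw [contDiffOn_pi]
    intro i
    exact GS_smooth_re 0 fun n => hT n i
  · exact GS_smooth_re 0 hP
  · intro t _ x j
    funext i
    simp only [GS_periodic]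
  · intro t _ x j
    simp only [GS_periodic]
  · intro t _ k hk
    funext i
    rw [fc_eq]
    simp only [hGS]
    have hk' : -k ∉ Q := fun e => hk (by simpa using hQ _ e)
    rw [int_SF_re (q_rd h i)]
    have z1 : cf' u i k t = 0 := by unfold cf'; rw [h.zero k hk]; rfl
    have z2 : cf' u i (-k) t = 0 := by unfold cf'; rw [h.zero _ hk']; rfl
    rw [z1, z2]
    simp
  · intro t ht k hk
    funext i
    rw [fc_eq]
    set r : SFam := fun k t => (chi Q k * dU c u i k t + ∑ j, cvv (cf' u j) (dS j (cf' u i)) k t)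
      + ((-(ν : ℂ)) * ∑ j, dS j (dS j (cf' u i)) k t + 1 * dS i (PF u) k t) with hr
    have hU : ∀ i, RD (cf' u i) := fun i => (hT 0 i).rd
    have hdS : ∀ j, RD (dS j (cf' u i)) := fun j => ((hT 0 i).dS j).rd
    have hdd : ∀ j, RD (dS j (dS j (cf' u i))) := fun j => (((hT 0 i).dS j).dS j).rd
    have hdP : RD (dS i (PF u)) := ((hP 0).dS i).rd
    have hcv : ∀ j, RD (cvv (cf' u j) (dS j (cf' u i))) := fun j => (hU j).conv (hdS j)
    have hsum1 : RD fun k t => ∑ j, cvv (cf' u j) (dS j (cf' u i)) k t :=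
      (TT.sum (n := 0) Finset.univ fun j _ => (hT 0 j).conv ((hT 0 i).dS j)).rd
    have hsum2 : RD fun k t => ∑ j, dS j (dS j (cf' u i)) k t :=
      (TT.sum (n := 0) Finset.univ fun j _ => ((hT 0 i).dS j).dS j).rd
    have hone : ∀ (z : ℂ) {c : SFam}, RD c → RD fun k t => z * c k t := fun z c hc =>
      hc.mul (C := ‖z‖) (r := 0) (p := fun _ => z) fun k => by simp
    have hrd : RD r := ((hdT 0 i).rd.add hsum1).add ((hone _ hsum2).add (hone _ hdP))
    have hres : ∀ x : E3, derivWithin (fun s => (GS 0 (cf' u i) s x).re) (Ici 0) t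
        + ∑ j, (GS 0 (cf' u j) t x).re * pd j (fun y => (GS 0 (cf' u i) t y).re) x
        - ν * ∑ j, pd j (pd j fun y => (GS 0 (cf' u i) t y).re) x
        + pd i (fun y => (GS 0 (PF u) t y).re) x = (SF r (t, x)).re := by
      intro x
      have hd0 : HasDerivWithinAt (fun s => (GS 0 (cf' u i) s x).re)
          (GS 0 (fun k t => chi Q k * dU c u i k t) t x
            + ∑ j, GS 0 (dS j (cf' u i)) t x * (-((0 : E3) j) : ℝ)).re (Ici 0) t := by
        have h1 := GS_dt 0 (hT 1 i) (fun k t ht => q_deriv h i k t ht) (hdT 0 i) ht x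
        have h2 := Complex.reCLM.hasFDerivAt.comp_hasDerivWithinAt t h1
        exact h2
      have hd := hd0.derivWithin (uniqueDiffOn_Ici (0 : ℝ) t ht)
      have e1 : ∀ j, pd j (fun y => (GS 0 (cf' u i) t y).re) = fun x => (GS 0 (dS j (cf' u i)) t x).re :=
        fun j => funext fun x => pd_GS' 0 (hT 1 i) ht j x
      have e2 : ∀ j, pd j (fun x => (GS 0 (dS j (cf' u i)) t x).re) x
          = (GS 0 (dS j (dS j (cf' u i))) t x).re :=
        fun j => pd_GS' 0 ((hT 1 i).dS j) ht j x
      have e3 : pd i (fun x => (GS 0 (PF u) t x).re) x = (GS 0 (dS i (PF u)) t x).re :=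
        pd_GS' 0 (hP 1) ht i x
      rw [hd]
      simp only [e1, e2, e3]
      have key : SF r (t, x) = (SF (fun k t => chi Q k * dU c u i k t) (t, x)
          + ∑ j, SF (cf' u j) (t, x) * SF (dS j (cf' u i)) (t, x))
          + ((-(ν : ℂ)) * ∑ j, SF (dS j (dS j (cf' u i))) (t, x) + 1 * SF (dS i (PF u)) (t, x)) := by
        have m1 : ∀ j, SF (cf' u j) (t, x) * SF (dS j (cf' u i)) (t, x)
            = SF (cvv (cf' u j) (dS j (cf' u i))) (t, x) := fun j => SF_mul (hU j) (hdS j) _
        simp only [m1]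
        rw [← SF_sum hcv, ← SF_sum hdd, ← SF_const_mul, ← SF_const_mul, ← SF_add (hdT 0 i).rd hsum1,
          ← SF_add (hone _ hsum2) (hone _ hdP), ← SF_add ((hdT 0 i).rd.add hsum1)
          ((hone _ hsum2).add (hone _ hdP))]
      have hre' : ∀ j, (SF (cf' u j) (t, x)).im = 0 := fun j => by
        have := hre j t x
        rwa [hGS] at this
      rw [key]
      simp only [hGS]
      simp only [Complex.add_re, Complex.re_sum, Complex.mul_re, hre', Complex.ofReal_re,
        Complex.ofReal_im, Complex.neg_re, Complex.neg_im,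
        Pi.zero_apply, neg_zero, mul_zero, zero_mul, sub_zero, Finset.sum_const_zero, add_zero,
        one_mul]
      ring
    have hfun : ∀ x : E3, ((((derivWithin (fun s => (GS 0 (cf' u i) s x).re) (Ici 0) t
        + ∑ j, (GS 0 (cf' u j) t x).re * pd j (fun y => (GS 0 (cf' u i) t y).re) x
        - ν * ∑ j, pd j (pd j fun y => (GS 0 (cf' u i) t y).re) x
        + pd i (fun y => (GS 0 (PF u) t y).re) x) : ℝ) : ℂ)) * ex (-k) x
        = (((SF r (t, x)).re : ℝ) : ℂ) * ex (-k) x := fun x => by rw [hres x]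
    simp only [hfun]
    rw [int_SF_re hrd]
    have hz : ∀ l ∈ Q, r l t = 0 := by
      intro l hl
      have h1 := fourier_eq (ν := ν) hU hdiv i l t
      simp only [hr]
      rw [chi_mem hl, one_mul, h1]
      ring
    rw [hz k hk, hz _ (hQ k hk)]
    simp
  · intro t ht x
    have e1 : ∀ i, pd i (fun y => (GS 0 (cf' u i) t y).re) x = (GS 0 (dS i (cf' u i)) t x).re :=
      fun i => pd_GS' 0 (hT 1 i) ht i x
    simp only [e1]
    rw [← Complex.re_sum]
    have : ∑ i, GS 0 (dS i (cf' u i)) t x = 0 := by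
      unfold GS
      rw [← SF_sum fun i => ((hT 0 i).dS i).rd]
      have h0 : (fun k t => ∑ j, dS j (cf' u j) k t) = fun _ _ => (0 : ℂ) := by
        funext k t
        have := hdiv k t
        unfold dt at this
        unfold dS fj cf'
        calc ∑ j, 2 * Real.pi * Complex.I * (k j : ℂ) * u k t j
            = 2 * Real.pi * Complex.I * ∑ j, (k j : ℂ) * u k t j := by
              rw [Finset.mul_sum]; exact Finset.sum_congr rfl fun j _ => by ring
          _ = 0 := by rw [this, mul_zero]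
      rw [h0]
      simp [SF]
    rw [this]; rfl
  · funext x i
    rw [hGS]
    unfold SF cf'
    simp only [h.init]
    exact ((hdata v hv).2.2.2 x i).symm

end Pool.Agent.Y154.NS
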