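import Pool.Agent.Y154.NS.Phys
import Pool.Agent.Y6.Stm6
import Pool.Agent.Y474.NSData

/-!
From the Fourier side to the physical side: solutions on `[0, T)`.
-/

open MeasureTheory Set Filter Topology
open scoped ENNReal NNReal ContDiff ComplexConjugate

set_option autoImplicit false

namespace Pool.Agent.Y154.NS

open Pool.Agent.H356R3.NS Pool.Agent.Y6
open Pool.Agent.H356R3.NS (K sq)

section cutoff

/-- bounded functions with `n` bounded derivatives -/
def BB : ℕ → (ℝ → ℝ) → Prop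
  | 0, g => (∃ C, ∀ t, |g t| ≤ C) ∧ Continuous g
  | n + 1, g => ((∃ C, ∀ t, |g t| ≤ C) ∧ Continuous g) ∧
      ∃ g' : ℝ → ℝ, (∀ t, HasDerivAt g (g' t) t) ∧ BB n g'

theorem BB.zero : ∀ {n : ℕ} {g : ℝ → ℝ}, BB n g → (∃ C, ∀ t, |g t| ≤ C) ∧ Continuous g
  | 0, _, h => h
  | _ + 1, _, h => h.1

theorem BB.pred : ∀ {n : ℕ} {g : ℝ → ℝ}, BB (n + 1) g → BB n g := by
  intro n
  induction n with
  | zero => intro g h; exact h.1
  | succ n ih =>
    intro g h
    obtain ⟨h1, g', h2, h3⟩ := h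
    exact ⟨h1, g', h2, ih h3⟩

theorem bb_of_compact (n : ℕ) : ∀ {g : ℝ → ℝ}, ContDiff ℝ ∞ g → HasCompactSupport g → BB n g := by
  induction n with
  | zero =>
    intro g hg hc
    obtain ⟨C, hC⟩ := hg.continuous.bounded_above_of_compact_support hc
    exact ⟨⟨C, hC⟩, hg.continuous⟩
  | succ n ih =>
    intro g hg hc
    obtain ⟨C, hC⟩ := hg.continuous.bounded_above_of_compact_support hc
    refine ⟨⟨⟨C, hC⟩, hg.continuous⟩, deriv g, fun t => ?_, ih ?_ hc.deriv⟩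
    · exact (hg.differentiable (by simp) t).hasDerivAt
    · exact (contDiff_infty_iff_deriv.1 hg).2

/-- multiplication by a function of time -/
theorem TT_scale (n : ℕ) : ∀ {g : ℝ → ℝ}, BB n g → ∀ {c : SFam}, TT n c →
    TT n (fun k t => (g t : ℂ) * c k t) := by
  have key : ∀ {g : ℝ → ℝ}, ((∃ C, ∀ t, |g t| ≤ C) ∧ Continuous g) → ∀ {c : SFam}, RD c →
      (∀ k, Continuous (c k)) →
      RD (fun k t => (g t : ℂ) * c k t) ∧ ∀ k, Continuous (fun t => (g t : ℂ) * c k t) := by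
    rintro g ⟨⟨C, hC⟩, hg⟩ c hc hcc
    refine ⟨fun m => ?_, fun k => (Complex.continuous_ofReal.comp hg).mul (hcc k)⟩
    obtain ⟨b, hb, h⟩ := hc m
    refine ⟨fun k => C * b k, hb.mul_left _, fun k t => ?_⟩
    rw [norm_mul, Complex.norm_real, Real.norm_eq_abs]
    calc pw k ^ m * (|g t| * ‖c k t‖) = |g t| * (pw k ^ m * ‖c k t‖) := by ring
      _ ≤ C * b k := mul_le_mul (hC t) (h k t)
          (mul_nonneg (pow_pos (pw_pos k) m).le (norm_nonneg _)) ((abs_nonneg _).trans (hC t))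
  induction n with
  | zero =>
    intro g hg c hc
    exact key hg hc.rd hc.ct
  | succ n ih =>
    intro g hg c hc
    have hg1 := hg.pred
    have hc1 := hc.pred
    have h0 := key hg.zero hc.rd hc.ct
    obtain ⟨-, g', h2, h3⟩ := hg
    obtain ⟨-, -, c', hc2, hc3⟩ := hc
    refine ⟨h0.1, h0.2, fun k t => (g' t : ℂ) * c k t + (g t : ℂ) * c' k t, fun k t ht => ?_,
      (ih h3 hc1).add (ih hg1 hc3)⟩
    exact ((h2 t).ofReal_comp).mul (hc2 k t ht)

end cutoff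

/-- Solutions with modes in `Q` on the Fourier side, with time speed `ρ`. -/
structure RSol (c : ℝ) (ρ : ℝ → ℝ) (Q : Set (Fin 3 → ℤ)) (u : (Fin 3 → ℤ) → ℝ → C3) : Prop where
  cf : ∀ k, Continuous (u k)
  zero : ∀ k, k ∉ Q → ∀ t, u k t = 0
  sym : ∀ t, Sym (fun k => u k t)
  div : ∀ k t, dt k (u k t) = 0
  rd : ∀ m : ℕ, ∃ C : ℝ, ∀ k t, pw k ^ m * ‖u k t‖ ≤ C
  ode : ∀ k ∈ Q, ∀ t, 0 < t → HasDerivAt (u k) (ρ t • RH c (fun k => u k t) k) t

section rsol

variable {c : ℝ} {ρ : ℝ → ℝ} {Q : Set (Fin 3 → ℤ)} {u : (Fin 3 → ℤ) → ℝ → C3}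

theorem r_rd (h : RSol c ρ Q u) (i : Fin 3) : RD (cf' u i) := by
  intro m
  obtain ⟨C, hC⟩ := h.rd (m + 4)
  refine ⟨fun k => C * (1 / pw k) ^ 4, (summ_of_bound m (fun k => hC k 0)).1, fun k t => ?_⟩
  refine le_trans ?_ ((summ_of_bound m (fun k => hC k t)).2 k)
  exact mul_le_mul_of_nonneg_left (norm_le_pi_norm _ i) (pow_pos (pw_pos k) m).le

theorem r_deriv (h : RSol c ρ Q u) (i : Fin 3) (k : Fin 3 → ℤ) (t : ℝ) (ht : 0 < t) :
    HasDerivAt (cf' u i k) ((ρ t : ℂ) * (chi Q k * dU c u i k t)) t := by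
  by_cases hk : k ∈ Q
  · have h1 := (hasDerivAt_pi.1 (h.ode k hk t ht)) i
    rw [chi_mem hk, one_mul, ← RH_eq]
    simp only [Pi.smul_apply, Complex.real_smul] at h1
    exact h1
  · have h1 : cf' u i k = fun _ => 0 := by
      funext s
      unfold cf'
      rw [h.zero k hk s]
      rfl
    rw [h1, chi_not hk, zero_mul, mul_zero]
    exact hasDerivAt_const _ _

theorem r_TT (h : RSol c ρ Q u) (hρ : ∀ n, BB n ρ) (n : ℕ) : ∀ i : Fin 3, TT n (cf' u i) := by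
  have hc : ∀ i k, Continuous (cf' u i k) := fun i k => (continuous_apply i).comp (h.cf k)
  induction n with
  | zero => intro i; exact ⟨r_rd h i, hc i⟩
  | succ n ih =>
    intro i
    exact ⟨r_rd h i, hc i, fun k t => (ρ t : ℂ) * (chi Q k * dU c u i k t),
      fun k t ht => r_deriv h i k t ht, TT_scale n (hρ n) (TT.mul (norm_chi Q) (TT_dU ih i))⟩

end rsol

theorem GS0 (d : SFam) (t : ℝ) (x : E3) : GS 0 d t x = SF d (t, x) := by
  unfold GS
  rw [smul_zero, sub_zero]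

section phys

variable {ν : ℝ} {ρ : ℝ → ℝ} {Q : Set (Fin 3 → ℤ)} {u : (Fin 3 → ℤ) → ℝ → C3}

theorem r_fc {c : ℝ} (h : RSol c ρ Q u) (t : ℝ) :
    fc (fun x i => (GS 0 (cf' u i) t x).re) = fun k => u k t := by
  funext k i
  rw [fc_eq]
  simp only [GS0]
  rw [int_SF_re (r_rd h i)]
  have h1 : cf' u i (-k) t = star (cf' u i k t) := h.sym t k i
  rw [h1, star_star]
  unfold cf'
  ring

theorem r_mom (hQ : ∀ k ∈ Q, -k ∈ Q) (hρ : ∀ n, BB n ρ) (h : RSol (4 * Real.pi ^ 2 * ν) ρ Q u)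
    (t : ℝ) (ht : 0 ≤ t) (ht1 : ρ t = 1) (k : Fin 3 → ℤ) (hk : k ∈ Q) :
    fc (fun x i => derivWithin (fun s => (GS 0 (cf' u i) s x).re) (Ici 0) t
        + ∑ j, (GS 0 (cf' u j) t x).re * pd j (fun y => (GS 0 (cf' u i) t y).re) x
        - ν * ∑ j, pd j (pd j fun y => (GS 0 (cf' u i) t y).re) x
        + pd i (fun y => (GS 0 (PF u) t y).re) x) k = 0 := by
  set c : ℝ := 4 * Real.pi ^ 2 * ν with hc
  have hT : ∀ n i, TT n (cf' u i) := fun n i => r_TT h hρ n i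
  have hP : ∀ n, TT n (PF u) := fun n => TT_PF (hT n)
  have hdT : ∀ n i, TT n (fun k t => (ρ t : ℂ) * (chi Q k * dU c u i k t)) := fun n i =>
    TT_scale n (hρ n) (TT.mul (norm_chi Q) (TT_dU (hT n) i))
  have hsym : ∀ i k t, cf' u i (-k) t = star (cf' u i k t) := fun i k t => h.sym t k i
  have hdiv := h.div
  have hre : ∀ i t x, (GS 0 (cf' u i) t x).im = 0 := fun i t x => SF_real (hsym i) _
  funext i
  rw [fc_eq]
  set r : SFam := fun k t => ((ρ t : ℂ) * (chi Q k * dU c u i k t)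
      + ∑ j, cvv (cf' u j) (dS j (cf' u i)) k t)
    + ((-(ν : ℂ)) * ∑ j, dS j (dS j (cf' u i)) k t + 1 * dS i (PF u) k t) with hr
  have hU : ∀ i, RD (cf' u i) := fun i => (hT 0 i).rd
  have hdS : ∀ j, RD (dS j (cf' u i)) := fun j => ((hT 0 i).dS j).rd
  have hdd : ∀ j, RD (dS j (dS j (cf' u i))) := fun j => (((hT 0 i).dS j).dS j).rd
  have hdP : RD (dS i (PF u)) := ((hP 0).dS i).rd
  have hcv : ∀ j, RD (cvv (cf' u j) (dS j (cf' u i))) := fun j => (hU j).conv (hdS j)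
  have hsum1 : RD fun k t => ∑ j, cvv (cf' u j) (dS j (cf' u i)) k t :=
    (TT.sum (n := 0) Finset.univ fun j _ => (hT 0 j).conv ((hT 0 i).dS j)).rd
  have hsum2 : RD fun k t => ∑ j, dS j (dS j (cf' u i)) k t :=
    (TT.sum (n := 0) Finset.univ fun j _ => ((hT 0 i).dS j).dS j).rd
  have hone : ∀ (z : ℂ) {c : SFam}, RD c → RD fun k t => z * c k t := fun z c hc =>
    hc.mul (C := ‖z‖) (r := 0) (p := fun _ => z) fun k => by simp
  have hrd : RD r := ((hdT 0 i).rd.add hsum1).add ((hone _ hsum2).add (hone _ hdP))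
  have hres : ∀ x : E3, derivWithin (fun s => (GS 0 (cf' u i) s x).re) (Ici 0) t
      + ∑ j, (GS 0 (cf' u j) t x).re * pd j (fun y => (GS 0 (cf' u i) t y).re) x
      - ν * ∑ j, pd j (pd j fun y => (GS 0 (cf' u i) t y).re) x
      + pd i (fun y => (GS 0 (PF u) t y).re) x = (SF r (t, x)).re := by
    intro x
    have hd0 : HasDerivWithinAt (fun s => (GS 0 (cf' u i) s x).re)
        (GS 0 (fun k t => (ρ t : ℂ) * (chi Q k * dU c u i k t)) t x
          + ∑ j, GS 0 (dS j (cf' u i)) t x * (-((0 : E3) j) : ℝ)).re (Ici 0) t := by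
      have h1 := GS_dt 0 (hT 1 i) (fun k t ht => r_deriv h i k t ht) (hdT 0 i) ht x
      have h2 := Complex.reCLM.hasFDerivAt.comp_hasDerivWithinAt t h1
      exact h2
    have hd := hd0.derivWithin (uniqueDiffOn_Ici (0 : ℝ) t ht)
    have e1 : ∀ j, pd j (fun y => (GS 0 (cf' u i) t y).re) = fun x => (GS 0 (dS j (cf' u i)) t x).re :=
      fun j => funext fun x => pd_GS' 0 (hT 1 i) ht j x
    have e2 : ∀ j, pd j (fun x => (GS 0 (dS j (cf' u i)) t x).re) x
        = (GS 0 (dS j (dS j (cf' u i))) t x).re :=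
      fun j => pd_GS' 0 ((hT 1 i).dS j) ht j x
    have e3 : pd i (fun x => (GS 0 (PF u) t x).re) x = (GS 0 (dS i (PF u)) t x).re :=
      pd_GS' 0 (hP 1) ht i x
    rw [hd]
    simp only [e1, e2, e3]
    have key : SF r (t, x) = (SF (fun k t => (ρ t : ℂ) * (chi Q k * dU c u i k t)) (t, x)
        + ∑ j, SF (cf' u j) (t, x) * SF (dS j (cf' u i)) (t, x))
        + ((-(ν : ℂ)) * ∑ j, SF (dS j (dS j (cf' u i))) (t, x) + 1 * SF (dS i (PF u)) (t, x)) := by
      have m1 : ∀ j, SF (cf' u j) (t, x) * SF (dS j (cf' u i)) (t, x)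
          = SF (cvv (cf' u j) (dS j (cf' u i))) (t, x) := fun j => SF_mul (hU j) (hdS j) _
      simp only [m1]
      rw [← SF_sum hcv, ← SF_sum hdd, ← SF_const_mul, ← SF_const_mul, ← SF_add (hdT 0 i).rd hsum1,
        ← SF_add (hone _ hsum2) (hone _ hdP), ← SF_add ((hdT 0 i).rd.add hsum1)
        ((hone _ hsum2).add (hone _ hdP))]
    have hre' : ∀ j, (SF (cf' u j) (t, x)).im = 0 := fun j => by
      have := hre j t x
      rwa [GS0] at this
    rw [key]
    simp only [GS0]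
    simp only [Complex.add_re, Complex.re_sum, Complex.mul_re, hre', Complex.ofReal_re,
      Complex.ofReal_im, Complex.neg_re, Complex.neg_im,
      Pi.zero_apply, neg_zero, mul_zero, zero_mul, sub_zero, Finset.sum_const_zero, add_zero,
      one_mul]
    ring
  have hfun : ∀ x : E3, ((((derivWithin (fun s => (GS 0 (cf' u i) s x).re) (Ici 0) t
      + ∑ j, (GS 0 (cf' u j) t x).re * pd j (fun y => (GS 0 (cf' u i) t y).re) x
      - ν * ∑ j, pd j (pd j fun y => (GS 0 (cf' u i) t y).re) x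
      + pd i (fun y => (GS 0 (PF u) t y).re) x) : ℝ) : ℂ)) * ex (-k) x
      = (((SF r (t, x)).re : ℝ) : ℂ) * ex (-k) x := fun x => by rw [hres x]
  simp only [hfun]
  rw [int_SF_re hrd]
  have hz : ∀ l ∈ Q, r l t = 0 := by
    intro l hl
    have h1 := fourier_eq (ν := ν) hU hdiv i l t
    simp only [hr]
    rw [chi_mem hl, one_mul, ht1, Complex.ofReal_one, one_mul, h1]
    ring
  rw [hz k hk, hz _ (hQ k hk)]
  simp

theorem r_div (hρ : ∀ n, BB n ρ) {c : ℝ} (h : RSol c ρ Q u) (t : ℝ) (ht : 0 ≤ t) (x : E3) :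
    ∑ i, pd i (fun y => (GS 0 (cf' u i) t y).re) x = 0 := by
  have hT : ∀ n i, TT n (cf' u i) := fun n i => r_TT h hρ n i
  have e1 : ∀ i, pd i (fun y => (GS 0 (cf' u i) t y).re) x = (GS 0 (dS i (cf' u i)) t x).re :=
    fun i => pd_GS' 0 (hT 1 i) ht i x
  simp only [e1]
  rw [← Complex.re_sum]
  have : ∑ i, GS 0 (dS i (cf' u i)) t x = 0 := by
    unfold GS
    rw [← SF_sum fun i => ((hT 0 i).dS i).rd]
    have h0 : (fun k t => ∑ j, dS j (cf' u j) k t) = fun _ _ => (0 : ℂ) := by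
      funext k t
      have := h.div k t
      unfold dt at this
      unfold dS fj cf'
      calc ∑ j, 2 * Real.pi * Complex.I * (k j : ℂ) * u k t j
          = 2 * Real.pi * Complex.I * ∑ j, (k j : ℂ) * u k t j := by
            rw [Finset.mul_sum]; exact Finset.sum_congr rfl fun j _ => by ring
        _ = 0 := by rw [this, mul_zero]
    rw [h0]
    simp [SF]
  rw [this]; rfl

end phys

section time

/-- The cut-off time. -/
theorem exists_time {T1 T2 : ℝ} (h1 : 0 < T1) (h2 : T1 < T2) : ∃ ρ θ : ℝ → ℝ, (∀ n, BB n ρ) ∧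
    (∀ t ∈ Ico 0 T1, ρ t = 1) ∧ Continuous θ ∧ (∀ t, HasDerivAt θ (ρ t) t) ∧
    (∀ t ∈ Icc 0 T1, θ t = t) ∧ (∀ t, 0 ≤ t → θ t ∈ Icc 0 T2) ∧ (∀ t, 0 < t → 0 < θ t) := by
  set f : ContDiffBump (0 : ℝ) := ⟨T1, T2, h1, h2⟩ with hf
  have hcont : Continuous (f : ℝ → ℝ) := f.continuous
  have hint : ∀ a b, IntervalIntegrable (f : ℝ → ℝ) volume a b := fun a b => hcont.intervalIntegrable a b
  have hone : ∀ t ∈ Icc 0 T1, f t = 1 := by
    intro t ht
    refine f.one_of_mem_closedBall ?_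
    rw [Metric.mem_closedBall, Real.dist_eq, sub_zero, abs_of_nonneg ht.1]
    exact ht.2
  have hzero : ∀ t, T2 ≤ t → f t = 0 := by
    intro t ht
    refine f.zero_of_le_dist ?_
    rw [Real.dist_eq, sub_zero]
    exact ht.trans (le_abs_self t)
  have hd : ∀ t, HasDerivAt (fun t => ∫ s in (0 : ℝ)..t, f s) (f t) t := fun t =>
    intervalIntegral.integral_hasDerivAt_right (hint _ _) (hcont.stronglyMeasurableAtFilter _ _)
      hcont.continuousAt
  have hmono : Monotone fun t => ∫ s in (0 : ℝ)..t, f s := by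
    refine monotone_of_deriv_nonneg (fun t => (hd t).differentiableAt) fun t => ?_
    rw [(hd t).deriv]
    exact f.nonneg
  have hid : ∀ t ∈ Icc 0 T1, ∫ s in (0 : ℝ)..t, f s = t := by
    intro t ht
    have : ∫ s in (0 : ℝ)..t, f s = ∫ _s in (0 : ℝ)..t, (1 : ℝ) := by
      refine intervalIntegral.integral_congr fun s hs => ?_
      rw [uIcc_of_le ht.1] at hs
      exact hone s ⟨hs.1, hs.2.trans ht.2⟩
    rw [this]
    simp
  refine ⟨f, fun t => ∫ s in (0 : ℝ)..t, f s, fun n => bb_of_compact n f.contDiff f.hasCompactSupport,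
    fun t ht => hone t ⟨ht.1, ht.2.le⟩, ?_, hd, hid, ?_, ?_⟩
  · exact continuous_iff_continuousAt.2 fun t => (hd t).continuousAt
  · intro t ht
    have h0 : (0 : ℝ) = ∫ s in (0 : ℝ)..0, f s := by simp
    constructor
    · conv_lhs => rw [h0]
      exact hmono ht
    · have hT2 : ∫ s in (0 : ℝ)..T2, f s ≤ T2 := by
        calc ∫ s in (0 : ℝ)..T2, f s ≤ ∫ _s in (0 : ℝ)..T2, (1 : ℝ) :=
              intervalIntegral.integral_mono_on (h1.trans h2).le (hint _ _)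
                (continuous_const.intervalIntegrable _ _) fun s _ => f.le_one
          _ = T2 := by simp
      rcases le_total t T2 with h3 | h3
      · exact (hmono h3).trans hT2
      · have h4 : ∫ s in (0 : ℝ)..t, f s = (∫ s in (0 : ℝ)..T2, f s) + ∫ s in T2..t, f s :=
          (intervalIntegral.integral_add_adjacent_intervals (hint _ _) (hint _ _)).symm
        have h5 : ∫ s in T2..t, f s = ∫ _s in T2..t, (0 : ℝ) := by
          refine intervalIntegral.integral_congr fun s hs => ?_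
          rw [uIcc_of_le h3] at hs
          exact hzero s hs.1
        change ∫ s in (0 : ℝ)..t, f s ≤ T2
        rw [h4, h5]
        simpa using hT2
  · intro t ht
    have h3 : 0 < min t T1 := lt_min ht h1
    have h4 := hid (min t T1) ⟨h3.le, min_le_right _ _⟩
    calc 0 < min t T1 := h3
      _ = ∫ s in (0 : ℝ)..(min t T1), f s := h4.symm
      _ ≤ _ := hmono (min_le_left _ _)

/-- Slowing down the time of a solution. -/
theorem exists_rsol {c : ℝ} {T1 T2 T3 : ℝ} (h1 : 0 < T1) (h2 : T1 < T2) (h3 : T2 < T3)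
    {Q : Set (Fin 3 → ℤ)} {w : ℝ → (Fin 3 → ℤ) → C3} (hw : TSol c T3 Q w) :
    ∃ (ρ : ℝ → ℝ) (u : (Fin 3 → ℤ) → ℝ → C3), (∀ n, BB n ρ) ∧ (∀ t ∈ Ico 0 T1, ρ t = 1) ∧
      RSol c ρ Q u ∧ ∀ t ∈ Ico 0 T1, ∀ k, u k t = w t k := by
  obtain ⟨ρ, θ, hρ, hρ1, hθc, hθd, hθi, hθm, hθp⟩ := exists_time h1 h2
  have hmax : ∀ t : ℝ, 0 ≤ max t 0 := fun t => le_max_right _ _
  have hm : ∀ t : ℝ, θ (max t 0) ∈ Ico 0 T3 := fun t =>
    ⟨(hθm _ (hmax t)).1, (hθm _ (hmax t)).2.trans_lt h3⟩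
  refine ⟨ρ, fun k t => w (θ (max t 0)) k, hρ, hρ1, ⟨?_, ?_, ?_, ?_, ?_, ?_⟩, ?_⟩
  · intro k
    exact (hw.cont k).comp_continuous (hθc.comp (continuous_id.max continuous_const)) hm
  · intro k hk t
    exact hw.supp _ (hm t) k hk
  · intro t
    exact (hw.fld _ (hm t)).sym
  · intro k t
    exact (hw.fld _ (hm t)).div k
  · intro m
    obtain ⟨C, hC⟩ := hw.rap T2 h3 m
    exact ⟨C, fun k t => hC _ (hθm _ (hmax t)) k⟩
  · intro k hk t ht
    have ht' : max t 0 = t := max_eq_left ht.le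
    have h4 := hw.ode (θ t) ⟨hθp t ht, ((hθm t ht.le).2).trans_lt h3⟩ k hk
    have h5 := h4.scomp t (hθd t)
    have h6 : (fun t => w (θ (max t 0)) k) =ᶠ[𝓝 t] (fun t => w t k) ∘ θ := by
      filter_upwards [lt_mem_nhds ht] with s hs
      simp only [Function.comp_apply, max_eq_left (le_of_lt hs)]
    simp only [ht']
    exact h5.congr_of_eventuallyEq h6
  · intro t ht k
    simp only [max_eq_left ht.1, hθi t ⟨ht.1, ht.2.le⟩]

end time

section local_

theorem SF_congr {c d : SFam} {t : ℝ} (h : ∀ k, c k t = d k t) (x : E3) : SF c (t, x) = SF d (t, x) := by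
  unfold SF
  exact tsum_congr fun k => by rw [h k]

theorem cvv_congr {c d c' d' : SFam} {t : ℝ} (h : ∀ k, c k t = c' k t) (h' : ∀ k, d k t = d' k t)
    (k : Fin 3 → ℤ) : cvv c d k t = cvv c' d' k t := by
  unfold cvv
  exact tsum_congr fun l => by rw [h l, h' (k - l)]

theorem PF_congr {u u' : (Fin 3 → ℤ) → ℝ → C3} {t : ℝ} (h : ∀ k, u k t = u' k t) (k : Fin 3 → ℤ) :
    PF u k t = PF u' k t := by
  unfold PF
  have h1 : ∀ i k, cf' u i k t = cf' u' i k t := fun i k => by unfold cf'; rw [h k]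
  exact Finset.sum_congr rfl fun j _ => Finset.sum_congr rfl fun m _ => by
    rw [cvv_congr (h1 j) (h1 m)]

end local_

/-- Solutions on `[0, T)`: from the Fourier side to the physical side. -/
theorem t_physQ : St_physQ := by
  intro ν Q T v w hν hQ h0Q hT hv hvQ hw hinit
  set u : (Fin 3 → ℤ) → ℝ → C3 := fun k t => w t k with hu
  -- local solutions
  have hloc : ∀ t ∈ tI T, ∃ (T1 : ℝ) (ρ : ℝ → ℝ) (u' : (Fin 3 → ℤ) → ℝ → C3), t < T1 ∧
      (T1 : EReal) < T ∧ (∀ n, BB n ρ) ∧ (∀ s ∈ Ico 0 T1, ρ s = 1) ∧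
      RSol (4 * Real.pi ^ 2 * ν) ρ Q u' ∧ ∀ s ∈ Ico 0 T1, ∀ k, u' k s = u k s := by
    rintro t ⟨ht0, htT⟩
    obtain ⟨T1, h1, h1T⟩ := EReal.lt_iff_exists_real_btwn.1 htT
    obtain ⟨T2, h2, h2T⟩ := EReal.lt_iff_exists_real_btwn.1 h1T
    obtain ⟨T3, h3, h3T⟩ := EReal.lt_iff_exists_real_btwn.1 h2T
    rw [EReal.coe_lt_coe_iff] at h1 h2 h3
    obtain ⟨ρ, u', a1, a2, a3, a4⟩ := exists_rsol (ht0.trans_lt h1) h2 h3 (hw T3 h3T.le)
    exact ⟨T1, ρ, u', h1, h1T, a1, a2, a3, a4⟩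
  have hU : ∀ {T1 : ℝ} {u' : (Fin 3 → ℤ) → ℝ → C3}, (∀ s ∈ Ico 0 T1, ∀ k, u' k s = u k s) →
      ∀ s ∈ Ico 0 T1, ∀ i (x : E3), GS 0 (cf' u i) s x = GS 0 (cf' u' i) s x := by
    intro T1 u' h s hs i x
    rw [GS0, GS0]
    exact SF_congr (fun k => by unfold cf'; rw [h s hs k]) x
  have hP : ∀ {T1 : ℝ} {u' : (Fin 3 → ℤ) → ℝ → C3}, (∀ s ∈ Ico 0 T1, ∀ k, u' k s = u k s) →
      ∀ s ∈ Ico 0 T1, ∀ (x : E3), GS 0 (PF u) s x = GS 0 (PF u') s x := by
    intro T1 u' h s hs x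
    rw [GS0, GS0]
    exact SF_congr (fun k => PF_congr (fun k => (h s hs k).symm) k) x
  have hsub : tI T ⊆ Ici 0 := fun t ht => ht.1
  have hfc : ∀ t ∈ tI T, fc (fun x i => (GS 0 (cf' u i) t x).re) = w t := by
    intro t ht
    obtain ⟨T1, ρ, u', h1, h1T, hρ, hρ1, hs, he⟩ := hloc t ht
    have h2 := r_fc hs t
    have h3 : (fun (x : E3) i => (GS 0 (cf' u i) t x).re) = fun x i => (GS 0 (cf' u' i) t x).re := by
      funext x i
      rw [hU he t ⟨ht.1, h1⟩ i x]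
    rw [h3, h2]
    funext k
    exact he t ⟨ht.1, h1⟩ k
  refine ⟨fun t x i => (GS 0 (cf' u i) t x).re, fun t x => (GS 0 (PF u) t x).re,
    ⟨?_, ?_, ?_, ?_, ?_, ?_, ?_, ?_⟩, hfc⟩
  · rw [contDiffOn_pi]
    intro i
    rintro ⟨t, x⟩ ⟨ht, -⟩
    obtain ⟨T1, ρ, u', h1, h1T, hρ, hρ1, hs, he⟩ := hloc t ht
    have h2 := GS_smooth_re 0 (fun n => r_TT hs hρ n i) (t, x) ⟨ht.1, mem_univ _⟩
    refine (h2.mono (prod_mono_left hsub)).congr_of_eventuallyEq ?_ ?_
    · have h3 : {z : ℝ × E3 | z.1 < T1} ∈ 𝓝[tI T ×ˢ univ] (t, x) :=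
        mem_nhdsWithin_of_mem_nhds ((isOpen_lt continuous_fst continuous_const).mem_nhds h1)
      filter_upwards [h3, self_mem_nhdsWithin] with z hz hz'
      rw [hU he z.1 ⟨hz'.1.1, hz⟩ i z.2]
    · exact congrArg Complex.re (hU he t ⟨ht.1, h1⟩ i x)
  · rintro ⟨t, x⟩ ⟨ht, -⟩
    obtain ⟨T1, ρ, u', h1, h1T, hρ, hρ1, hs, he⟩ := hloc t ht
    have h2 := GS_smooth_re 0 (fun n => TT_PF (r_TT hs hρ n)) (t, x) ⟨ht.1, mem_univ _⟩
    refine (h2.mono (prod_mono_left hsub)).congr_of_eventuallyEq ?_ ?_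
    · have h3 : {z : ℝ × E3 | z.1 < T1} ∈ 𝓝[tI T ×ˢ univ] (t, x) :=
        mem_nhdsWithin_of_mem_nhds ((isOpen_lt continuous_fst continuous_const).mem_nhds h1)
      filter_upwards [h3, self_mem_nhdsWithin] with z hz hz'
      rw [hP he z.1 ⟨hz'.1.1, hz⟩ z.2]
    · exact congrArg Complex.re (hP he t ⟨ht.1, h1⟩ x)
  · intro t _ x j
    funext i
    simp only [GS_periodic]
  · intro t _ x j
    simp only [GS_periodic]
  · intro t ht k hk
    rw [hfc t ht]
    obtain ⟨T1, ρ, u', h1, h1T, hρ, hρ1, hs, he⟩ := hloc t ht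
    rw [← hs.zero k hk t]
    exact (he t ⟨ht.1, h1⟩ k).symm
  · intro t ht k hk
    obtain ⟨T1, ρ, u', h1, h1T, hρ, hρ1, hs, he⟩ := hloc t ht
    have h2 := r_mom hQ hρ hs t ht.1 (hρ1 t ⟨ht.1, h1⟩) k hk
    refine Eq.trans ?_ h2
    congr 1
    funext x i
    have e1 : ∀ i, (fun y : E3 => (GS 0 (cf' u i) t y).re) = fun y => (GS 0 (cf' u' i) t y).re :=
      fun i => funext fun y => by rw [hU he t ⟨ht.1, h1⟩ i y]
    have e2 : (fun y : E3 => (GS 0 (PF u) t y).re) = fun y => (GS 0 (PF u') t y).re :=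
      funext fun y => by rw [hP he t ⟨ht.1, h1⟩ y]
    have e3 : ∀ j, (GS 0 (cf' u j) t x).re = (GS 0 (cf' u' j) t x).re :=
      fun j => by rw [hU he t ⟨ht.1, h1⟩ j x]
    have e4 : derivWithin (fun s => (GS 0 (cf' u i) s x).re) (tI T) t
        = derivWithin (fun s => (GS 0 (cf' u' i) s x).re) (Ici 0) t := by
      have h3 : {s : ℝ | s < T1} ∈ 𝓝 t := Iio_mem_nhds h1
      have h4 : tI T =ᶠ[𝓝 t] Ici 0 := by
        filter_upwards [h3] with s hs
        refine propext ⟨fun h => h.1, fun h => ⟨h, ?_⟩⟩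
        exact (EReal.coe_lt_coe_iff.2 hs).trans h1T
      rw [derivWithin_congr_set h4]
      refine Filter.EventuallyEq.derivWithin_eq ?_ ?_
      · filter_upwards [mem_nhdsWithin_of_mem_nhds h3, self_mem_nhdsWithin] with s hs hs'
        rw [hU he s ⟨hs', hs⟩ i x]
      · exact e3 i
    rw [e4, e2]
    simp only [e1, e3]
  · intro t ht x
    obtain ⟨T1, ρ, u', h1, h1T, hρ, hρ1, hs, he⟩ := hloc t ht
    have h2 := r_div hρ hs t ht.1 x
    refine Eq.trans ?_ h2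
    refine Finset.sum_congr rfl fun i _ => ?_
    congr 1
    funext y
    rw [hU he t ⟨ht.1, h1⟩ i y]
  · funext x i
    rw [GS0]
    unfold SF cf'
    simp only [hu, hinit]
    exact ((Pool.Agent.Y474.NSData.t_data v hv).2.2.2 x i).symm

end Pool.Agent.Y154.NS
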