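import Pool.Agent.Y154.NS.TrilB

/-!
The trilinear estimate for sets of modes with few quadruples.
-/

open MeasureTheory Set
open scoped ENNReal

set_option autoImplicit false

namespace Pool.Agent.Y154.NS

open Pool.Agent.Y6

/-- The `ℓ²` norm. -/
noncomputable def e2 (f : K → ℝ≥0∞) : ℝ≥0∞ := S2 f ^ (1 / 2 : ℝ)

theorem e2_sq (f : K → ℝ≥0∞) : e2 f ^ 2 = S2 f := half_sq _

theorem e2_mono {f g : K → ℝ≥0∞} (h : ∀ k, f k ≤ g k) : e2 f ≤ e2 g := by
  unfold e2 S2
  refine ENNReal.rpow_le_rpow (ENNReal.tsum_le_tsum fun k => ?_) (by norm_num)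
  exact pow_le_pow_left' (h k) 2

theorem half_mul_half (x : ℝ≥0∞) : x ^ (1 / 2 : ℝ) * x ^ (1 / 2 : ℝ) = x := by
  rw [← sq, half_sq]

open Classical in
/-- Restriction to a shell. -/
noncomputable def aj (w : K → ℝ≥0∞) (j : ℕ) (l : K) : ℝ≥0∞ :=
  if 2 ^ j ≤ sz l ∧ sz l < 2 ^ (j + 1) then w l else 0

open Classical in
/-- Restriction to large frequencies. -/
noncomputable def gj (w : K → ℝ≥0∞) (j : ℕ) (k : K) : ℝ≥0∞ := if 2 ^ j ≤ sz k then w k else 0

/-- The box of a frequency. -/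
def fl (j : ℕ) (k : K) : K := fun i => k i / 2 ^ (j + 1)

open Classical in
/-- Restriction to a box. -/
noncomputable def gp (w : K → ℝ≥0∞) (j : ℕ) (p k : K) : ℝ≥0∞ := if p = fl j k then gj w j k else 0

theorem scale_est' {A : ℝ} {Q : Set K} (hA : 1 ≤ A) (hQ : ∀ k ∈ Q, -k ∈ Q) (hG : Good A Q)
    (w : K → ℝ≥0∞) (hw : ∀ k, k ∉ Q → w k = 0) (j : ℕ) (p p' : K) :
    ∑' l, ∑' k, aj w j l * (gp w j p k * gp w j p' (k + l)) ≤
      ENNReal.ofReal (10 * A * 4 ^ j) ^ (1 / 2 : ℝ) *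
        (e2 (aj w j) * e2 (gp w j p) * e2 (gp w j p')) := by
  have hgp : ∀ p k, k ∉ far Q j p → gp w j p k = 0 := by
    intro p k hk
    unfold gp gj
    by_cases h1 : p = fl j k
    · by_cases h2 : 2 ^ j ≤ sz k
      · rw [if_pos h1, if_pos h2]
        refine hw k fun h3 => hk ⟨h3, h2, fun i => ?_⟩
        rw [h1]; rfl
      · simp [h2]
    · simp [h1]
  have h := scale_est hA hQ hG j p p' (aj w j) (gp w j p) (gp w j p') (by
    intro l hl
    unfold aj
    split_ifs with h1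
    · exact hw l fun h2 => hl ⟨h2, h1⟩
    · rfl) (hgp p) (hgp p')
  calc ∑' l, ∑' k, aj w j l * (gp w j p k * gp w j p' (k + l))
      = ((∑' l, ∑' k, aj w j l * (gp w j p k * gp w j p' (k + l))) ^ 2) ^ (1 / 2 : ℝ) :=
        (sq_half _).symm
    _ ≤ (ENNReal.ofReal (10 * A * 4 ^ j) * (S2 (aj w j) * S2 (gp w j p) * S2 (gp w j p')))
          ^ (1 / 2 : ℝ) := ENNReal.rpow_le_rpow h (by norm_num)
    _ = _ := by
        rw [ENNReal.mul_rpow_of_nonneg _ _ (by norm_num), ENNReal.mul_rpow_of_nonneg _ _ (by norm_num),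
          ENNReal.mul_rpow_of_nonneg _ _ (by norm_num)]
        rfl

theorem sum_gp (w : K → ℝ≥0∞) (j : ℕ) : ∑' p, S2 (gp w j p) = S2 (gj w j) := by
  unfold S2
  rw [ENNReal.tsum_comm]
  refine tsum_congr fun k => ?_
  have : ∀ p, gp w j p k ^ 2 = if p = fl j k then gj w j k ^ 2 else 0 := by
    intro p
    unfold gp
    split_ifs <;> simp
  simp_rw [this]
  rw [tsum_ite_eq]

/-- The neighbours of a box. -/
def nb : Set K := {e | ∀ i, -1 ≤ e i ∧ e i ≤ 1}

theorem num_nb : num nb ≤ 27 := by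
  classical
  set F : Finset K := Fintype.piFinset fun _ => Finset.Icc (-1 : ℤ) 1 with hF
  have h1 : nb ⊆ (F : Set K) := by
    intro e he
    rw [Finset.mem_coe, hF, Fintype.mem_piFinset]
    intro i
    rw [Finset.mem_Icc]
    exact he i
  refine (num_mono h1).trans ?_
  rw [num_finite F.finite_toSet, Set.ncard_coe_finset, hF, Fintype.card_piFinset_const,
    Int.card_Icc]
  have e : ((1 : ℤ) + 1 - -1).toNat = 3 := by decide
  rw [e]
  norm_num

theorem fl_nb {j : ℕ} {l : K} (hl : sz l < 2 ^ (j + 1)) (k : K) : fl j (k + l) - fl j k ∈ nb := by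
  intro i
  have h2 := abs_le.1 (le_sz l i)
  have h3 : (sz l : ℤ) < 2 ^ (j + 1) := by exact_mod_cast hl
  have hM : (0 : ℤ) < 2 ^ (j + 1) := by positivity
  simp only [Pi.sub_apply, fl, Pi.add_apply]
  have a1 := Int.ediv_mul_le (k i + l i) hM.ne'
  have a2 := Int.lt_ediv_add_one_mul_self (k i + l i) hM
  have b1 := Int.ediv_mul_le (k i) hM.ne'
  have b2 := Int.lt_ediv_add_one_mul_self (k i) hM
  set r := (k i + l i) / 2 ^ (j + 1)
  set q := k i / 2 ^ (j + 1)
  set M : ℤ := 2 ^ (j + 1)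
  have c1 : r * M < (q + 2) * M := by linarith [h2.1, h2.2]
  have c2 : q * M < (r + 2) * M := by linarith [h2.1, h2.2]
  have d1 := lt_of_mul_lt_mul_right c1 hM.le
  have d2 := lt_of_mul_lt_mul_right c2 hM.le
  constructor <;> omega

theorem shell_est {A : ℝ} {Q : Set K} (hA : 1 ≤ A) (hQ : ∀ k ∈ Q, -k ∈ Q) (hG : Good A Q)
    (w : K → ℝ≥0∞) (hw : ∀ k, k ∉ Q → w k = 0) (j : ℕ) :
    ∑' l, ∑' k, aj w j l * (gj w j k * gj w j (k + l)) ≤
      27 * (ENNReal.ofReal (10 * A * 4 ^ j) ^ (1 / 2 : ℝ) * (e2 (aj w j) * S2 (gj w j))) := by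
  set B := ENNReal.ofReal (10 * A * 4 ^ j) ^ (1 / 2 : ℝ) with hB
  have h1 : ∀ l k, aj w j l * (gj w j k * gj w j (k + l)) ≤
      ∑' e, ∑' p, ind nb e * (aj w j l * (gp w j p k * gp w j (p + e) (k + l))) := by
    intro l k
    by_cases hl : 2 ^ j ≤ sz l ∧ sz l < 2 ^ (j + 1)
    · have h2 := fl_nb hl.2 k
      calc aj w j l * (gj w j k * gj w j (k + l))
          = ind nb (fl j (k + l) - fl j k) * (aj w j l * (gp w j (fl j k) k *
              gp w j (fl j k + (fl j (k + l) - fl j k)) (k + l))) := by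
            rw [ind_of_mem h2, one_mul]
            have e1 : fl j k + (fl j (k + l) - fl j k) = fl j (k + l) := by abel
            rw [e1]
            simp [gp]
        _ ≤ ∑' p, ind nb (fl j (k + l) - fl j k) * (aj w j l * (gp w j p k *
              gp w j (p + (fl j (k + l) - fl j k)) (k + l))) :=
            ENNReal.le_tsum (f := fun p => ind nb (fl j (k + l) - fl j k) * (aj w j l *
              (gp w j p k * gp w j (p + (fl j (k + l) - fl j k)) (k + l)))) (fl j k)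
        _ ≤ _ := ENNReal.le_tsum (f := fun e => ∑' p, ind nb e * (aj w j l * (gp w j p k *
              gp w j (p + e) (k + l)))) (fl j (k + l) - fl j k)
    · have : aj w j l = 0 := by unfold aj; rw [if_neg hl]
      simp [this]
  refine (ENNReal.tsum_le_tsum fun l => ENNReal.tsum_le_tsum fun k => h1 l k).trans ?_
  rw [comm4]
  have h2 : ∀ e, ∑' p, ∑' l, ∑' k, ind nb e * (aj w j l * (gp w j p k * gp w j (p + e) (k + l)))
      ≤ ind nb e * (B * (e2 (aj w j) * S2 (gj w j))) := by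
    intro e
    simp_rw [ENNReal.tsum_mul_left (a := ind nb e)]
    gcongr
    calc ∑' p, ∑' l, ∑' k, aj w j l * (gp w j p k * gp w j (p + e) (k + l))
        ≤ ∑' p, B * (e2 (aj w j) * e2 (gp w j p) * e2 (gp w j (p + e))) :=
          ENNReal.tsum_le_tsum fun p => scale_est' hA hQ hG w hw j p (p + e)
      _ = B * (e2 (aj w j) * ∑' p, e2 (gp w j p) * e2 (gp w j (p + e))) := by
          rw [← ENNReal.tsum_mul_left, ← ENNReal.tsum_mul_left]
          exact tsum_congr fun p => by ring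
      _ ≤ B * (e2 (aj w j) * ((∑' p, e2 (gp w j p) ^ 2) ^ (1 / 2 : ℝ)
            * (∑' p, e2 (gp w j (p + e)) ^ 2) ^ (1 / 2 : ℝ))) := by
          gcongr
          exact enn_cs _ _
      _ = B * (e2 (aj w j) * S2 (gj w j)) := by
          have e3 : ∑' p, e2 (gp w j (p + e)) ^ 2 = ∑' p, e2 (gp w j p) ^ 2 :=
            tsum_shift (fun p => e2 (gp w j p) ^ 2) e
          rw [e3]
          simp_rw [e2_sq, sum_gp]
          rw [half_mul_half]
  refine (ENNReal.tsum_le_tsum h2).trans ?_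
  rw [ENNReal.tsum_mul_right]
  gcongr
  exact num_nb

theorem sz_pos {k : K} (h : k ≠ 0) : 1 ≤ sz k := by
  by_contra h1
  refine h ?_
  funext i
  have h2 := le_sz k i
  have h3 : (sz k : ℤ) = 0 := by exact_mod_cast (by omega : sz k = 0)
  rw [h3] at h2
  simpa using h2

open Classical in
/-- The part of the trilinear form in which `l` is the smallest. -/
noncomputable def low (w : K → ℝ≥0∞) (k l : K) : ℝ≥0∞ :=
  if sz l ≤ sz k ∧ sz l ≤ sz (k + l) then w k * w l * w (k + l) else 0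

theorem low_le (w : K → ℝ≥0∞) (h0 : w 0 = 0) :
    ∑' k, ∑' l, low w k l ≤ ∑' j, ∑' l, ∑' k, aj w j l * (gj w j k * gj w j (k + l)) := by
  have h1 : ∀ l k, low w k l ≤ ∑' j, aj w j l * (gj w j k * gj w j (k + l)) := by
    intro l k
    unfold low
    split_ifs with h
    · by_cases hl : l = 0
      · subst hl; simp [h0]
      · have hp := sz_pos hl
        set j := Nat.log 2 (sz l) with hj
        have h2 : 2 ^ j ≤ sz l := Nat.pow_log_le_self 2 (by omega)
        have h3 : sz l < 2 ^ (j + 1) := Nat.lt_pow_succ_log_self (by norm_num) _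
        calc w k * w l * w (k + l) = aj w j l * (gj w j k * gj w j (k + l)) := by
              unfold aj gj
              rw [if_pos ⟨h2, h3⟩, if_pos (h2.trans h.1), if_pos (h2.trans h.2)]
              ring
          _ ≤ _ := ENNReal.le_tsum (f := fun j => aj w j l * (gj w j k * gj w j (k + l))) j
    · exact zero_le
  calc ∑' k, ∑' l, low w k l = ∑' l, ∑' k, low w k l := ENNReal.tsum_comm
    _ ≤ ∑' l, ∑' k, ∑' j, aj w j l * (gj w j k * gj w j (k + l)) :=
      ENNReal.tsum_le_tsum fun l => ENNReal.tsum_le_tsum fun k => h1 l k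
    _ = ∑' l, ∑' j, ∑' k, aj w j l * (gj w j k * gj w j (k + l)) :=
      tsum_congr fun l => ENNReal.tsum_comm
    _ = _ := ENNReal.tsum_comm

theorem full_le (w : K → ℝ≥0∞) (hs : ∀ k, w (-k) = w k) :
    ∑' k, ∑' l, w k * w l * w (k + l) ≤ 3 * ∑' k, ∑' l, low w k l := by
  have h1 : ∀ k l, w k * w l * w (k + l) ≤ low w k l + low w l k + low w (-l) (k + l) := by
    intro k l
    have e1 : -l + (k + l) = k := by abel
    have e2 : l + k = k + l := add_comm _ _
    by_cases hA : sz l ≤ sz k ∧ sz l ≤ sz (k + l)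
    · have : low w k l = w k * w l * w (k + l) := by unfold low; rw [if_pos hA]
      rw [this, add_assoc]
      exact le_self_add
    · by_cases hB : sz k ≤ sz l ∧ sz k ≤ sz (k + l)
      · have : low w l k = w k * w l * w (k + l) := by
          unfold low
          rw [e2, if_pos hB]
          ring
        rw [this, add_comm (low w k l), add_assoc]
        exact le_self_add
      · have hC : sz (k + l) ≤ sz (-l) ∧ sz (k + l) ≤ sz (-l + (k + l)) := by
          rw [e1, sz_neg]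
          rw [not_and_or, not_le, not_le] at hA hB
          omega
        have : low w (-l) (k + l) = w k * w l * w (k + l) := by
          unfold low
          rw [if_pos hC, e1, hs]
          ring
        rw [this]
        exact le_add_self
  refine (ENNReal.tsum_le_tsum fun k => ENNReal.tsum_le_tsum fun l => h1 k l).trans ?_
  simp_rw [ENNReal.tsum_add]
  have a1 : ∑' k, ∑' l, low w l k = ∑' k, ∑' l, low w k l := ENNReal.tsum_comm
  have a2 : ∑' k, ∑' l, low w (-l) (k + l) = ∑' k, ∑' l, low w k l := by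
    rw [ENNReal.tsum_comm]
    have b1 : ∀ l, ∑' k, low w (-l) (k + l) = ∑' m, low w (-l) m := fun l => tsum_shift _ l
    simp_rw [b1]
    exact (Equiv.neg K).tsum_eq (fun l => ∑' m, low w l m)
  rw [a1, a2]
  apply le_of_eq
  ring

theorem sum_aj (w : K → ℝ≥0∞) : ∑' j, S2 (aj w j) ≤ S2 w := by
  unfold S2
  rw [ENNReal.tsum_comm]
  refine ENNReal.tsum_le_tsum fun l => ?_
  have h : ∀ j, aj w j l ^ 2 ≤ if j = Nat.log 2 (sz l) then w l ^ 2 else 0 := by
    intro j
    unfold aj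
    by_cases h1 : 2 ^ j ≤ sz l ∧ sz l < 2 ^ (j + 1)
    · have h2 : j = Nat.log 2 (sz l) := by
        symm
        have hp : sz l ≠ 0 := by
          have := Nat.pow_pos (n := j) (show 0 < 2 by norm_num)
          omega
        exact (Nat.log_eq_iff (Or.inr ⟨by norm_num, hp⟩)).2 h1
      rw [if_pos h1, if_pos h2]
    · rw [if_neg h1]
      simp
  refine (ENNReal.tsum_le_tsum h).trans ?_
  rw [tsum_ite_eq]

open Classical in
theorem sum_four (N : ℕ) : ∑' j : ℕ, (if 2 ^ j ≤ N then (4 : ℝ≥0∞) ^ j else 0) ≤ 2 * (N : ℝ≥0∞) ^ 2 := by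
  rcases Nat.eq_zero_or_pos N with h0 | h0
  · subst h0
    have : ∀ j : ℕ, ¬ (2 ^ j ≤ 0) := fun j => by
      have := Nat.pow_pos (n := j) (show 0 < 2 by norm_num)
      omega
    simp
  · set J := Nat.log 2 N with hJ
    have h1 : ∀ j, j ∉ Finset.range (J + 1) → (if 2 ^ j ≤ N then (4 : ℝ≥0∞) ^ j else 0) = 0 := by
      intro j hj
      rw [Finset.mem_range, not_lt] at hj
      have h2 : N < 2 ^ j := Nat.lt_pow_of_log_lt (by norm_num) (by omega)
      rw [if_neg (by omega)]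
    rw [tsum_eq_sum h1]
    have h3 : 2 ^ J ≤ N := Nat.pow_log_le_self 2 h0.ne'
    have h4 : ∀ J : ℕ, ∑ j ∈ Finset.range (J + 1), 4 ^ j ≤ 2 * 4 ^ J := by
      intro J
      induction J with
      | zero => simp
      | succ n ih =>
        rw [Finset.sum_range_succ]
        calc ∑ j ∈ Finset.range (n + 1), 4 ^ j + 4 ^ (n + 1) ≤ 2 * 4 ^ n + 4 ^ (n + 1) := by omega
          _ ≤ 2 * 4 ^ (n + 1) := by rw [pow_succ]; omega
    calc ∑ j ∈ Finset.range (J + 1), (if 2 ^ j ≤ N then (4 : ℝ≥0∞) ^ j else 0)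
        ≤ ∑ j ∈ Finset.range (J + 1), (4 : ℝ≥0∞) ^ j := by
          refine Finset.sum_le_sum fun j _ => ?_
          split_ifs <;> simp
      _ = ((∑ j ∈ Finset.range (J + 1), 4 ^ j : ℕ) : ℝ≥0∞) := by push_cast; rfl
      _ ≤ ((2 * 4 ^ J : ℕ) : ℝ≥0∞) := by exact_mod_cast h4 J
      _ ≤ ((2 * N ^ 2 : ℕ) : ℝ≥0∞) := by
          have h5 : 2 * 4 ^ J ≤ 2 * N ^ 2 := by
            have : 4 ^ J = (2 ^ J) ^ 2 := by rw [← pow_mul, mul_comm, pow_mul]; norm_num
            rw [this]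
            gcongr
          exact_mod_cast h5
      _ = _ := by push_cast; rfl

theorem sum_gj (w : K → ℝ≥0∞) :
    ∑' j : ℕ, (2 ^ j * e2 (gj w j)) ^ 2 ≤ 2 * ∑' k, ((sz k : ℝ≥0∞) * w k) ^ 2 := by
  have h1 : ∀ j : ℕ, (2 ^ j * e2 (gj w j)) ^ 2
      = ∑' k, (if 2 ^ j ≤ sz k then (4 : ℝ≥0∞) ^ j else 0) * w k ^ 2 := by
    intro j
    rw [mul_pow, e2_sq]
    unfold S2
    rw [← ENNReal.tsum_mul_left]
    refine tsum_congr fun k => ?_
    have e4 : ((2 : ℝ≥0∞) ^ j) ^ 2 = 4 ^ j := by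
      rw [← pow_mul, mul_comm, pow_mul]; norm_num
    rw [e4]
    unfold gj
    split_ifs <;> simp
  simp_rw [h1]
  rw [ENNReal.tsum_comm, ← ENNReal.tsum_mul_left]
  refine ENNReal.tsum_le_tsum fun k => ?_
  rw [ENNReal.tsum_mul_right]
  calc (∑' j : ℕ, if 2 ^ j ≤ sz k then (4 : ℝ≥0∞) ^ j else 0) * w k ^ 2
      ≤ (2 * (sz k : ℝ≥0∞) ^ 2) * w k ^ 2 := by
        gcongr
        exact sum_four (sz k)
    _ = _ := by ring

theorem t_tril : St_tril := by
  refine ⟨81 * Real.sqrt 20, by positivity, ?_⟩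
  intro A Q hA hQ hG w hw h0 hs
  have hB : ∀ j : ℕ, ENNReal.ofReal (10 * A * 4 ^ j) ^ (1 / 2 : ℝ)
      = ENNReal.ofReal (10 * A) ^ (1 / 2 : ℝ) * 2 ^ j := by
    intro j
    rw [ENNReal.ofReal_mul (by positivity), ENNReal.mul_rpow_of_nonneg _ _ (by norm_num)]
    congr 1
    have : ENNReal.ofReal (4 ^ j) = ((2 : ℝ≥0∞) ^ j) ^ 2 := by
      rw [← pow_mul, mul_comm, pow_mul, ENNReal.ofReal_pow (by norm_num)]
      norm_num
    rw [this, sq_half]
  have h1 : ∀ j : ℕ, ∑' l, ∑' k, aj w j l * (gj w j k * gj w j (k + l)) ≤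
      (27 * ENNReal.ofReal (10 * A) ^ (1 / 2 : ℝ) * e2 w) *
        (e2 (aj w j) * (2 ^ j * e2 (gj w j))) := by
    intro j
    refine (shell_est hA hQ hG w hw j).trans ?_
    rw [hB, ← e2_sq (gj w j)]
    have h2 : e2 (gj w j) ≤ e2 w := by
      refine e2_mono fun k => ?_
      unfold gj
      split_ifs <;> simp
    calc 27 * (ENNReal.ofReal (10 * A) ^ (1 / 2 : ℝ) * 2 ^ j * (e2 (aj w j) * e2 (gj w j) ^ 2))
        = (27 * ENNReal.ofReal (10 * A) ^ (1 / 2 : ℝ) * e2 (gj w j)) *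
        (e2 (aj w j) * (2 ^ j * e2 (gj w j))) := by ring
      _ ≤ _ := by gcongr
  calc ∑' k, ∑' l, w k * w l * w (k + l) ≤ 3 * ∑' k, ∑' l, low w k l := full_le w hs
    _ ≤ 3 * ∑' j, ∑' l, ∑' k, aj w j l * (gj w j k * gj w j (k + l)) := by
        gcongr
        exact low_le w h0
    _ ≤ 3 * ∑' j : ℕ, (27 * ENNReal.ofReal (10 * A) ^ (1 / 2 : ℝ) * e2 w) *
        (e2 (aj w j) * (2 ^ j * e2 (gj w j))) := by
        gcongr with j
        exact h1 j
    _ = 81 * ENNReal.ofReal (10 * A) ^ (1 / 2 : ℝ) * e2 w *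
          ∑' j : ℕ, e2 (aj w j) * (2 ^ j * e2 (gj w j)) := by
        rw [ENNReal.tsum_mul_left, ← mul_assoc, ← mul_assoc, ← mul_assoc]
        norm_num
    _ ≤ 81 * ENNReal.ofReal (10 * A) ^ (1 / 2 : ℝ) * e2 w *
          ((∑' j : ℕ, e2 (aj w j) ^ 2) ^ (1 / 2 : ℝ) *
            (∑' j : ℕ, (2 ^ j * e2 (gj w j)) ^ 2) ^ (1 / 2 : ℝ)) := by
        gcongr
        exact enn_cs _ _
    _ ≤ 81 * ENNReal.ofReal (10 * A) ^ (1 / 2 : ℝ) * e2 w *
          (e2 w * (2 * ∑' k, ((sz k : ℝ≥0∞) * w k) ^ 2) ^ (1 / 2 : ℝ)) := by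
        gcongr
        · unfold e2
          simp_rw [half_sq]
          exact ENNReal.rpow_le_rpow (sum_aj w) (by norm_num)
        · exact sum_gj w
    _ = (81 * (ENNReal.ofReal (10 * A) ^ (1 / 2 : ℝ) * 2 ^ (1 / 2 : ℝ))) * (e2 w ^ 2) *
          (∑' k, ((sz k : ℝ≥0∞) * w k) ^ 2) ^ (1 / 2 : ℝ) := by
        rw [ENNReal.mul_rpow_of_nonneg _ _ (by norm_num : (0 : ℝ) ≤ 1 / 2)]
        ring
    _ = _ := by
        rw [e2_sq]
        congr 2
        rw [← ENNReal.mul_rpow_of_nonneg _ _ (by norm_num : (0 : ℝ) ≤ 1 / 2)]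
        have e2 : (2 : ℝ≥0∞) = ENNReal.ofReal 2 := by norm_num
        rw [e2, ← ENNReal.ofReal_mul (by positivity), ENNReal.ofReal_rpow_of_nonneg (by positivity)
          (by norm_num), ← Real.sqrt_eq_rpow]
        have e81 : (81 : ℝ≥0∞) = ENNReal.ofReal 81 := by norm_num
        rw [e81, ← ENNReal.ofReal_mul (by norm_num)]
        congr 1
        have e20 : 10 * A * 2 = 20 * A := by ring
        rw [e20, Real.sqrt_mul (by norm_num : (0 : ℝ) ≤ 20)]
        ring

end Pool.Agent.Y154.NS
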