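import Pool.Agent.Y6.Stm

/-!
The local form of the trilinear estimate.
-/

open MeasureTheory Set
open scoped ENNReal

set_option autoImplicit false

namespace Pool.Agent.Y154.NS

open Pool.Agent.Y6

/-- Cauchy-Schwarz. -/
theorem enn_cs {ι : Type*} [Countable ι] (f g : ι → ℝ≥0∞) :
    (∑' i, f i * g i) ≤ (∑' i, f i ^ 2) ^ (1 / 2 : ℝ) * (∑' i, g i ^ 2) ^ (1 / 2 : ℝ) := by
  let _ : MeasurableSpace ι := ⊤
  have h := ENNReal.lintegral_mul_le_Lp_mul_Lq (Measure.count : Measure ι)
    (by rw [Real.holderConjugate_iff]; norm_num : Real.HolderConjugate 2 2)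
    (f := f) (g := g) measurable_from_top.aemeasurable measurable_from_top.aemeasurable
  simp only [lintegral_count, Pi.mul_apply] at h
  have e : ∀ f : ι → ℝ≥0∞, (∑' i, f i ^ (2 : ℝ)) = ∑' i, f i ^ 2 := by
    intro f
    exact tsum_congr fun i => by rw [← ENNReal.rpow_natCast]; norm_num
  rw [e, e] at h
  exact h

theorem half_sq (x : ℝ≥0∞) : (x ^ (1 / 2 : ℝ)) ^ 2 = x := by
  rw [← ENNReal.rpow_natCast, ← ENNReal.rpow_mul]
  norm_num

theorem sq_half (x : ℝ≥0∞) : (x ^ 2) ^ (1 / 2 : ℝ) = x := by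
  rw [← ENNReal.rpow_natCast, ← ENNReal.rpow_mul]
  norm_num

theorem cs2 {ι : Type*} [Countable ι] (f g : ι → ℝ≥0∞) :
    (∑' i, f i * g i) ^ 2 ≤ (∑' i, f i ^ 2) * (∑' i, g i ^ 2) := by
  calc (∑' i, f i * g i) ^ 2
      ≤ ((∑' i, f i ^ 2) ^ (1 / 2 : ℝ) * (∑' i, g i ^ 2) ^ (1 / 2 : ℝ)) ^ 2 :=
        pow_le_pow_left' (enn_cs f g) 2
    _ = _ := by rw [mul_pow, half_sq, half_sq]

/-- The sum of the squares. -/
noncomputable def S2 {ι : Type*} (f : ι → ℝ≥0∞) : ℝ≥0∞ := ∑' i, f i ^ 2

open Classical in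
/-- The indicator function. -/
noncomputable def ind {ι : Type*} (S : Set ι) (x : ι) : ℝ≥0∞ := if x ∈ S then 1 else 0

/-- The number of elements. -/
noncomputable def num {ι : Type*} (S : Set ι) : ℝ≥0∞ := ∑' x, ind S x

theorem ind_of_mem {ι : Type*} {S : Set ι} {x : ι} (h : x ∈ S) : ind S x = 1 := by
  simp [ind, h]

theorem ind_of_notMem {ι : Type*} {S : Set ι} {x : ι} (h : x ∉ S) : ind S x = 0 := by
  simp [ind, h]

theorem ind_sq {ι : Type*} (S : Set ι) (x : ι) : ind S x ^ 2 = ind S x := by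
  by_cases h : x ∈ S
  · simp [ind_of_mem h]
  · simp [ind_of_notMem h]

theorem ind_le_one {ι : Type*} (S : Set ι) (x : ι) : ind S x ≤ 1 := by
  by_cases h : x ∈ S
  · simp [ind_of_mem h]
  · simp [ind_of_notMem h]

theorem ind_mul_eq {ι : Type*} {S : Set ι} {f : ι → ℝ≥0∞} (hf : ∀ x, x ∉ S → f x = 0) (x : ι) :
    ind S x * f x = f x := by
  by_cases h : x ∈ S
  · simp [ind_of_mem h]
  · simp [ind_of_notMem h, hf x h]

open Classical in
/-- The indicator of the complement of the diagonal. -/
noncomputable def off {ι : Type*} (x y : ι) : ℝ≥0∞ := if x = y then 0 else 1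

theorem off_le_one {ι : Type*} (x y : ι) : off x y ≤ 1 := by
  unfold off; split_ifs <;> simp

theorem off_sq {ι : Type*} (x y : ι) : off x y ^ 2 = off x y := by
  unfold off; split_ifs <;> simp

theorem off_add_left (l k k' : K) : off (l + k) (l + k') = off k k' := by
  unfold off; simp

theorem tsum_split {ι : Type*} (f : ι → ℝ≥0∞) (x : ι) :
    ∑' y, f y = f x + ∑' y, off x y * f y := by
  classical
  rw [ENNReal.tsum_eq_add_tsum_ite x]
  congr 1
  refine tsum_congr fun y => ?_
  unfold off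
  by_cases h : y = x
  · simp [h]
  · have h' : ¬ x = y := fun e => h e.symm
    simp [h, h']

/-- The double sum splits in a diagonal part and the rest. -/
theorem dsum_split {ι : Type*} (f : ι → ι → ℝ≥0∞) :
    ∑' x, ∑' y, f x y = ∑' x, f x x + ∑' x, ∑' y, off x y * f x y := by
  rw [← ENNReal.tsum_add]
  exact tsum_congr fun x => tsum_split (f x) x

theorem tsum_shift (f : K → ℝ≥0∞) (l : K) : ∑' k, f (k + l) = ∑' k, f k :=
  (Equiv.addRight l).tsum_eq f

theorem tsum_shift' (f : K → ℝ≥0∞) (l : K) : ∑' k, f (l + k) = ∑' k, f k :=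
  (Equiv.addLeft l).tsum_eq f

theorem sq_tsum {ι : Type*} (f : ι → ℝ≥0∞) : (∑' x, f x) ^ 2 = ∑' x, ∑' y, f x * f y := by
  rw [sq, ← ENNReal.tsum_mul_right]
  exact tsum_congr fun x => by rw [ENNReal.tsum_mul_left]

/-- Step D: few pairs. -/
theorem stepD (d : K → ℝ≥0∞) (D : Set K) (hd : ∀ m, m ∉ D → d m = 0) (N : K → K → ℝ≥0∞)
    (X : ℝ≥0∞) (hXt : X ≠ ⊤)
    (hX : ∀ m m', m ∈ D → m' ∈ D → m ≠ m' → N m m' * num D ≤ X) :
    ∑' m, ∑' m', off m m' * (d m * d m' * N m m') ≤ X * ∑' m, d m ^ 2 := by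
  by_cases hD : D = ∅
  · have h0 : ∀ m, d m = 0 := fun m => hd m (by simp [hD])
    simp [h0]
  obtain ⟨m0, hm0⟩ := Set.nonempty_iff_ne_empty.2 hD
  have hn : num D ≠ 0 := by
    have h1 : (1 : ℝ≥0∞) ≤ num D := by
      calc (1 : ℝ≥0∞) = ind D m0 := (ind_of_mem hm0).symm
        _ ≤ _ := ENNReal.le_tsum m0
    exact (lt_of_lt_of_le zero_lt_one h1).ne'
  have h1 : ∀ m m', off m m' * (d m * d m' * N m m') ≤ (d m * d m') * (X / num D) := by
    intro m m'
    by_cases hm : m ∈ D
    · by_cases hm' : m' ∈ D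
      · by_cases e : m = m'
        · subst e; simp [off]
        · have h2 := hX m m' hm hm' e
          have h3 : N m m' ≤ X / num D :=
            (ENNReal.le_div_iff_mul_le (Or.inl hn) (Or.inr hXt)).2 h2
          calc off m m' * (d m * d m' * N m m') ≤ 1 * (d m * d m' * N m m') := by
                gcongr; exact off_le_one _ _
            _ = d m * d m' * N m m' := one_mul _
            _ ≤ _ := by gcongr
      · simp [hd m' hm']
    · simp [hd m hm]
  calc ∑' m, ∑' m', off m m' * (d m * d m' * N m m')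
      ≤ ∑' m, ∑' m', (d m * d m') * (X / num D) :=
        ENNReal.tsum_le_tsum fun m => ENNReal.tsum_le_tsum fun m' => h1 m m'
    _ = (∑' m, d m) ^ 2 * (X / num D) := by
        rw [sq_tsum, ← ENNReal.tsum_mul_right]
        exact tsum_congr fun m => by rw [ENNReal.tsum_mul_right]
    _ = (∑' m, ind D m * d m) ^ 2 * (X / num D) := by
        simp_rw [ind_mul_eq hd]
    _ ≤ ((∑' m, ind D m ^ 2) * (∑' m, d m ^ 2)) * (X / num D) := by
        gcongr
        exact cs2 _ _
    _ = (X / num D * num D) * (∑' m, d m ^ 2) := by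
        simp_rw [ind_sq]
        unfold num
        ring
    _ ≤ X * ∑' m, d m ^ 2 := by
        gcongr
        rw [mul_comm]; exact ENNReal.mul_div_le

theorem comm4 (H : K → K → K → K → ℝ≥0∞) :
    ∑' k, ∑' k', ∑' l, ∑' l', H k k' l l' = ∑' l, ∑' l', ∑' k, ∑' k', H k k' l l' := by
  calc ∑' k, ∑' k', ∑' l, ∑' l', H k k' l l'
      = ∑' p : K × K, ∑' q : K × K, H p.1 p.2 q.1 q.2 := by
        rw [ENNReal.tsum_prod (f := fun k k' => ∑' q : K × K, H k k' q.1 q.2)]
        refine tsum_congr fun k => tsum_congr fun k' => ?_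
        exact (ENNReal.tsum_prod (f := fun l l' => H k k' l l')).symm
    _ = ∑' q : K × K, ∑' p : K × K, H p.1 p.2 q.1 q.2 := ENNReal.tsum_comm
    _ = _ := by
        rw [ENNReal.tsum_prod (f := fun l l' => ∑' p : K × K, H p.1 p.2 l l')]
        refine tsum_congr fun l => tsum_congr fun l' => ?_
        exact ENNReal.tsum_prod (f := fun k k' => H k k' l l')

theorem rot4 (H : K → K → K → K → ℝ≥0∞) :
    ∑' l, ∑' s, ∑' m, ∑' m', H l s m m' = ∑' s, ∑' m, ∑' m', ∑' l, H l s m m' := by
  rw [ENNReal.tsum_comm]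
  refine tsum_congr fun s => ?_
  rw [ENNReal.tsum_comm]
  refine tsum_congr fun m => ?_
  rw [ENNReal.tsum_comm]

/-- The number of `l` in `L` with `l + s` in `L` and `m - l`, `m' - l` in `B`. -/
noncomputable def N4 (L B : Set K) (s m m' : K) : ℝ≥0∞ :=
  num {l | l ∈ L ∧ l + s ∈ L ∧ m - l ∈ B ∧ m' - l ∈ B}

theorem N4_eq (L B : Set K) (s m m' : K) :
    N4 L B s m m' = ∑' l, (ind L l * ind L (l + s) * (ind B (m - l) * ind B (m' - l))) := by
  unfold N4 num
  refine tsum_congr fun l => ?_
  unfold ind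
  by_cases h1 : l ∈ L <;> by_cases h2 : l + s ∈ L <;> by_cases h3 : m - l ∈ B <;>
    by_cases h4 : m' - l ∈ B <;> simp [h1, h2, h3, h4]

/-- Step C: the square of the correlations. -/
theorem stepC (c : K → ℝ≥0∞) (L B C : Set K) (nL X : ℝ≥0∞) (hXt : X ≠ ⊤)
    (hc : ∀ k, k ∉ C → c k = 0) (hL : num L ≤ nL)
    (hX : ∀ s, s ≠ 0 → ∀ m m', m ∈ C → m' ∈ C → m + s ∈ C → m' + s ∈ C → m ≠ m' →
      N4 L B s m m' * num {m | m ∈ C ∧ m + s ∈ C} ≤ X) :
    ∑' k, ∑' k', (off k k' * (ind B k * ind B k') *
      ∑' l, ind L l * (c (k + l) * c (k' + l))) ^ 2 ≤ (nL + X) * S2 c ^ 2 := by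
  set F : K → K → K → K → ℝ≥0∞ := fun k k' l l' =>
    (ind L l * (c (k + l) * c (k' + l))) * (ind L l' * (c (k + l') * c (k' + l'))) with hF
  have e1 : ∀ k k', (off k k' * (ind B k * ind B k') *
      ∑' l, ind L l * (c (k + l) * c (k' + l))) ^ 2
      = off k k' * (ind B k * ind B k') * ∑' l, F k k' l l
        + ∑' l, ∑' l', off k k' * (ind B k * ind B k') * (off l l' * F k k' l l') := by
    intro k k'
    rw [mul_pow, mul_pow, mul_pow, off_sq, ind_sq, ind_sq, sq_tsum]
    rw [dsum_split, mul_add]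
    congr 1
    rw [← ENNReal.tsum_mul_left]
    refine tsum_congr fun l => ?_
    rw [← ENNReal.tsum_mul_left]
  simp_rw [e1]
  simp_rw [ENNReal.tsum_add]
  rw [add_mul]
  refine add_le_add ?_ ?_
  · calc ∑' k, ∑' k', off k k' * (ind B k * ind B k') * ∑' l, F k k' l l
        ≤ ∑' k, ∑' k', ∑' l, ind L l * (c (k + l) ^ 2 * c (k' + l) ^ 2) := by
          refine ENNReal.tsum_le_tsum fun k => ENNReal.tsum_le_tsum fun k' => ?_
          calc off k k' * (ind B k * ind B k') * ∑' l, F k k' l l
              ≤ 1 * (1 * 1) * ∑' l, F k k' l l := by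
                gcongr
                · exact off_le_one _ _
                · exact ind_le_one _ _
                · exact ind_le_one _ _
            _ = ∑' l, ind L l * (c (k + l) ^ 2 * c (k' + l) ^ 2) := by
                simp only [one_mul]
                refine tsum_congr fun l => ?_
                simp only [hF]
                calc ind L l * (c (k + l) * c (k' + l)) * (ind L l * (c (k + l) * c (k' + l)))
                    = ind L l ^ 2 * (c (k + l) ^ 2 * c (k' + l) ^ 2) := by ring
                  _ = _ := by rw [ind_sq]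
      _ = ∑' l, ∑' k, ∑' k', ind L l * (c (k + l) ^ 2 * c (k' + l) ^ 2) := by
          rw [ENNReal.tsum_comm]
          have : ∀ k, ∑' k', ∑' l, ind L l * (c (k + l) ^ 2 * c (k' + l) ^ 2)
              = ∑' l, ∑' k', ind L l * (c (k + l) ^ 2 * c (k' + l) ^ 2) :=
            fun k => ENNReal.tsum_comm
          rw [ENNReal.tsum_comm]
          simp_rw [this]
          rw [ENNReal.tsum_comm]
      _ = ∑' l, ind L l * S2 c ^ 2 := by
          refine tsum_congr fun l => ?_
          have h1 : ∑' k, c (k + l) ^ 2 = S2 c := tsum_shift (fun k => c k ^ 2) l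
          simp_rw [ENNReal.tsum_mul_left, h1, ENNReal.tsum_mul_right, h1]
          rw [sq]
      _ = num L * S2 c ^ 2 := by rw [ENNReal.tsum_mul_right]; rfl
      _ ≤ nL * S2 c ^ 2 := by gcongr
  · rw [comm4]
    set H : K → K → K → K → ℝ≥0∞ := fun l l' k k' =>
      off k k' * (ind B k * ind B k') * (off l l' * F k k' l l') with hH
    have e2 : ∀ l, ∑' l', ∑' k, ∑' k', H l l' k k'
        = ∑' s, ∑' m, ∑' m', H l (l + s) (m - l) (m' - l) := by
      intro l
      rw [← tsum_shift' _ l]
      refine tsum_congr fun s => ?_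
      rw [← tsum_shift _ (-l)]
      refine tsum_congr fun m => ?_
      rw [← tsum_shift _ (-l)]
      refine tsum_congr fun m' => ?_
      simp only [sub_eq_add_neg]
    change ∑' l, ∑' l', ∑' k, ∑' k', H l l' k k' ≤ _
    simp_rw [e2]
    rw [rot4]
    have e3 : ∀ s m m', ∑' l, H l (l + s) (m - l) (m' - l)
        = off 0 s * (off m m' * ((c m * c (m + s)) * (c m' * c (m' + s)) * N4 L B s m m')) := by
      intro s m m'
      rw [N4_eq, ← ENNReal.tsum_mul_left, ← ENNReal.tsum_mul_left, ← ENNReal.tsum_mul_left]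
      refine tsum_congr fun l => ?_
      simp only [hH, hF]
      have a1 : m - l + l = m := by abel
      have a2 : m' - l + l = m' := by abel
      have a3 : m - l + (l + s) = m + s := by abel
      have a4 : m' - l + (l + s) = m' + s := by abel
      have a5 : off (m - l) (m' - l) = off m m' := by unfold off; simp
      have a6 : off l (l + s) = off 0 s := by unfold off; simp [eq_comm]
      rw [a1, a2, a3, a4, a5, a6]
      ring
    simp_rw [e3]
    calc ∑' s, ∑' m, ∑' m', off 0 s *
          (off m m' * ((c m * c (m + s)) * (c m' * c (m' + s)) * N4 L B s m m'))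
        ≤ ∑' s, X * ∑' m, (c m * c (m + s)) ^ 2 := by
          refine ENNReal.tsum_le_tsum fun s => ?_
          by_cases hs : s = 0
          · subst hs
            simp [off]
          · have h0 : off 0 s = 1 := by
              unfold off
              rw [if_neg (fun e => hs e.symm)]
            simp_rw [h0, one_mul]
            refine stepD (fun m => c m * c (m + s)) {m | m ∈ C ∧ m + s ∈ C} ?_
              (fun m m' => N4 L B s m m') X hXt ?_
            · intro m hm
              simp only [Set.mem_ofPred_eq, not_and_or] at hm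
              rcases hm with hm | hm
              · simp [hc m hm]
              · simp [hc _ hm]
            · intro m m' hm hm' hmm
              exact hX s hs m m' hm.1 hm'.1 hm.2 hm'.2 hmm
      _ = X * S2 c ^ 2 := by
          rw [ENNReal.tsum_mul_left]
          congr 1
          rw [ENNReal.tsum_comm]
          have : ∀ m, ∑' s, (c m * c (m + s)) ^ 2 = c m ^ 2 * S2 c := by
            intro m
            simp_rw [mul_pow]
            rw [ENNReal.tsum_mul_left]
            congr 1
            exact tsum_shift' (fun k => c k ^ 2) m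
          simp_rw [this]
          rw [ENNReal.tsum_mul_right, sq]
          rfl

/-- The local trilinear estimate. -/
theorem local_est (a b c : K → ℝ≥0∞) (L B C : Set K) (nL X κ : ℝ≥0∞) (hXt : X ≠ ⊤)
    (ha : ∀ k, k ∉ L → a k = 0) (hb : ∀ k, k ∉ B → b k = 0)
    (hc : ∀ k, k ∉ C → c k = 0) (hL : num L ≤ nL)
    (hX : ∀ s, s ≠ 0 → ∀ m m', m ∈ C → m' ∈ C → m + s ∈ C → m' + s ∈ C → m ≠ m' →
      N4 L B s m m' * num {m | m ∈ C ∧ m + s ∈ C} ≤ X) (hκ : nL + X ≤ κ ^ 2) :
    (∑' l, ∑' k, a l * (b k * c (k + l))) ^ 2 ≤ (1 + κ) * (S2 a * S2 b * S2 c) := by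
  have e1 : ∑' l, ∑' k, a l * (b k * c (k + l)) = ∑' l, a l * (ind L l * ∑' k, b k * c (k + l)) := by
    refine tsum_congr fun l => ?_
    rw [ENNReal.tsum_mul_left, ← mul_assoc, mul_comm (a l) (ind L l), ind_mul_eq ha]
  rw [e1]
  refine (cs2 _ _).trans ?_
  have key : ∑' l, (ind L l * ∑' k, b k * c (k + l)) ^ 2 ≤ (1 + κ) * (S2 b * S2 c) := by
    have e2 : ∀ l, (ind L l * ∑' k, b k * c (k + l)) ^ 2
        = ∑' k, ind L l * (b k ^ 2 * c (k + l) ^ 2)
          + ∑' k, ∑' k', off k k' * (ind L l * (b k * b k' * (c (k + l) * c (k' + l)))) := by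
      intro l
      rw [mul_pow, ind_sq, sq_tsum, dsum_split, mul_add]
      congr 1
      · rw [← ENNReal.tsum_mul_left]
        refine tsum_congr fun k => ?_
        ring
      · rw [← ENNReal.tsum_mul_left]
        refine tsum_congr fun k => ?_
        rw [← ENNReal.tsum_mul_left]
        refine tsum_congr fun k' => ?_
        ring
    simp_rw [e2]
    rw [ENNReal.tsum_add, add_mul, one_mul]
    refine add_le_add ?_ ?_
    · calc ∑' l, ∑' k, ind L l * (b k ^ 2 * c (k + l) ^ 2)
          ≤ ∑' l, ∑' k, (b k ^ 2 * c (k + l) ^ 2) := by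
            refine ENNReal.tsum_le_tsum fun l => ENNReal.tsum_le_tsum fun k => ?_
            calc ind L l * (b k ^ 2 * c (k + l) ^ 2) ≤ 1 * (b k ^ 2 * c (k + l) ^ 2) := by
                  gcongr; exact ind_le_one _ _
              _ = _ := one_mul _
        _ = S2 b * S2 c := by
            rw [ENNReal.tsum_comm]
            have : ∀ k, ∑' l, b k ^ 2 * c (k + l) ^ 2 = b k ^ 2 * S2 c := by
              intro k
              rw [ENNReal.tsum_mul_left]
              congr 1
              exact tsum_shift' (fun k => c k ^ 2) k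
            simp_rw [this]
            rw [ENNReal.tsum_mul_right]
            rfl
    · set G : K → K → ℝ≥0∞ := fun k k' => off k k' * (ind B k * ind B k') *
        ∑' l, ind L l * (c (k + l) * c (k' + l)) with hG
      have e3 : ∑' l, ∑' k, ∑' k', off k k' * (ind L l * (b k * b k' * (c (k + l) * c (k' + l))))
          = ∑' p : K × K, (b p.1 * b p.2) * G p.1 p.2 := by
        rw [ENNReal.tsum_prod (f := fun k k' => (b k * b k') * G k k')]
        rw [ENNReal.tsum_comm]
        refine tsum_congr fun k => ?_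
        rw [ENNReal.tsum_comm]
        refine tsum_congr fun k' => ?_
        simp only [hG]
        calc ∑' l, off k k' * (ind L l * (b k * b k' * (c (k + l) * c (k' + l))))
            = ∑' l, (off k k' * (b k * b k')) * (ind L l * (c (k + l) * c (k' + l))) :=
              tsum_congr fun l => by ring
          _ = off k k' * (b k * b k') * ∑' l, ind L l * (c (k + l) * c (k' + l)) := by
              rw [ENNReal.tsum_mul_left]
          _ = off k k' * ((ind B k * b k) * (ind B k' * b k')) *
                ∑' l, ind L l * (c (k + l) * c (k' + l)) := by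
              rw [ind_mul_eq hb, ind_mul_eq hb]
          _ = _ := by ring
      rw [e3]
      rw [← ENNReal.pow_le_pow_left_iff (two_ne_zero)]
      refine (cs2 _ _).trans ?_
      have e4 : ∑' p : K × K, (b p.1 * b p.2) ^ 2 = S2 b ^ 2 := by
        rw [ENNReal.tsum_prod (f := fun k k' => (b k * b k') ^ 2)]
        unfold S2
        rw [sq_tsum]
        exact tsum_congr fun k => tsum_congr fun k' => by ring
      have e5 : ∑' p : K × K, G p.1 p.2 ^ 2 ≤ κ ^ 2 * S2 c ^ 2 := by
        rw [ENNReal.tsum_prod (f := fun k k' => G k k' ^ 2)]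
        refine (stepC c L B C nL X hXt hc hL hX).trans ?_
        gcongr
      rw [e4]
      calc S2 b ^ 2 * ∑' p : K × K, G p.1 p.2 ^ 2 ≤ S2 b ^ 2 * (κ ^ 2 * S2 c ^ 2) := by gcongr
        _ = _ := by ring
  calc (∑' l, a l ^ 2) * ∑' l, (ind L l * ∑' k, b k * c (k + l)) ^ 2
      ≤ S2 a * ((1 + κ) * (S2 b * S2 c)) := by
        unfold S2 at key ⊢
        gcongr
    _ = _ := by ring

end Pool.Agent.Y154.NS
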