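import Pool.Agent.Y154.NS.TrilA

/-!
Counting, and the trilinear estimate at one scale.
-/

open MeasureTheory Set
open scoped ENNReal

set_option autoImplicit false

namespace Pool.Agent.Y154.NS

open Pool.Agent.Y6

theorem num_mono {ι : Type*} {S T : Set ι} (h : S ⊆ T) : num S ≤ num T := by
  refine ENNReal.tsum_le_tsum fun x => ?_
  by_cases hx : x ∈ S
  · rw [ind_of_mem hx, ind_of_mem (h hx)]
  · rw [ind_of_notMem hx]; exact zero_le

theorem ind_congr {ι κ : Type*} {S : Set ι} {T : Set κ} {x : ι} {y : κ} (h : x ∈ S ↔ y ∈ T) :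
    ind S x = ind T y := by
  by_cases hx : x ∈ S
  · rw [ind_of_mem hx, ind_of_mem (h.1 hx)]
  · rw [ind_of_notMem hx, ind_of_notMem (fun e => hx (h.2 e))]

theorem num_shift (S : Set K) (c : K) : num {l | l + c ∈ S} = num S := by
  unfold num
  rw [← tsum_shift (ind S) c]
  exact tsum_congr fun l => ind_congr Iff.rfl

theorem num_finite {ι : Type*} {S : Set ι} (h : S.Finite) : num S = (S.ncard : ℝ≥0∞) := by
  classical
  unfold num
  have h1 : ∑' x, ind S x = ∑ x ∈ h.toFinset, ind S x := by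
    refine tsum_eq_sum fun x hx => ?_
    exact ind_of_notMem (fun e => hx (h.mem_toFinset.2 e))
  rw [h1, Finset.sum_congr rfl (fun x hx => ind_of_mem (h.mem_toFinset.1 hx)),
    Finset.sum_const, Set.ncard_eq_toFinset_card S h]
  simp

theorem num_iUnion_le {ι κ : Type*} [Fintype κ] (T : Set ι) (S : κ → Set ι)
    (h : ∀ x ∈ T, ∃ i, x ∈ S i) : num T ≤ ∑ i, num (S i) := by
  unfold num
  rw [← Summable.tsum_finsetSum (fun i _ => ENNReal.summable)]
  refine ENNReal.tsum_le_tsum fun x => ?_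
  by_cases hx : x ∈ T
  · obtain ⟨i, hi⟩ := h x hx
    rw [ind_of_mem hx, ← ind_of_mem hi]
    exact Finset.single_le_sum (f := fun i => ind (S i) x) (fun _ _ => zero_le) (Finset.mem_univ i)
  · rw [ind_of_notMem hx]; exact zero_le

theorem sz_neg (k : K) : sz (-k) = sz k := by
  unfold sz
  simp

theorem le_sz (k : K) (i : Fin 3) : |k i| ≤ (sz k : ℤ) := by
  have h : (k i).natAbs ≤ sz k :=
    Finset.le_sup (f := fun i => (k i).natAbs) (Finset.mem_univ i)
  rw [← Int.natCast_natAbs]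
  exact_mod_cast h

theorem ne_zero_of_sz {k : K} {j : ℕ} (h : 2 ^ j ≤ sz k) : k ≠ 0 := by
  rintro rfl
  have h0 : sz (0 : K) = 0 := by simp [sz]
  rw [h0] at h
  have : 0 < 2 ^ j := by positivity
  omega

theorem mem_bx {j : ℕ} {l : K} : l ∈ bx j ↔ ∀ i, 0 ≤ l i ∧ l i < 2 ^ (j + 1) := by
  unfold bx
  simp [Fintype.mem_piFinset]

/-- The set counted by `cnt`. -/
def cntSet (Q : Set K) (j : ℕ) {n : ℕ} (x : Fin n → K) : Set K :=
  {l : K | l ∈ bx j ∧ ∀ i, l + x i ∈ Q ∧ 2 ^ j ≤ sz (l + x i)}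

theorem cnt_eq (Q : Set K) (j : ℕ) {n : ℕ} (x : Fin n → K) :
    (cnt Q j x : ℝ≥0∞) = num (cntSet Q j x) := by
  have hf : (cntSet Q j x).Finite := (bx j).finite_toSet.subset fun l hl => hl.1
  rw [num_finite hf]
  rfl

/-- The points of `Q` in the shell of scale `j`. -/
def shell (Q : Set K) (j : ℕ) : Set K := {l | l ∈ Q ∧ 2 ^ j ≤ sz l ∧ sz l < 2 ^ (j + 1)}

/-- The points of `Q` of size at least `2^j` in the box `p`. -/
def far (Q : Set K) (j : ℕ) (p : K) : Set K :=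
  {k | k ∈ Q ∧ 2 ^ j ≤ sz k ∧ ∀ i, k i / 2 ^ (j + 1) = p i}

/-- The corner of the box `p`. -/
def corner (j : ℕ) (p : K) : K := fun i => p i * 2 ^ (j + 1)

theorem num_far_le (Q : Set K) (j : ℕ) (p s : K) :
    num {m | m ∈ far Q j p ∧ m + s ∈ far Q j p} ≤ cnt Q j ![corner j p, corner j p + s] := by
  rw [cnt_eq, ← num_shift _ (corner j p)]
  refine num_mono ?_
  rintro l ⟨h1, h2⟩
  refine ⟨mem_bx.2 fun i => ?_, ?_⟩
  · have h := h1.2.2 i
    simp only [Pi.add_apply, corner] at h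
    have hM : (0 : ℤ) < 2 ^ (j + 1) := by positivity
    have ha := Int.ediv_mul_le (l i + p i * 2 ^ (j + 1)) hM.ne'
    have hb := Int.lt_ediv_add_one_mul_self (l i + p i * 2 ^ (j + 1)) hM
    rw [h] at ha hb
    constructor <;> linarith
  · intro i
    fin_cases i
    · exact ⟨h1.1, h1.2.1⟩
    · have e : l + (corner j p + s) = l + corner j p + s := by abel
      change l + (corner j p + s) ∈ Q ∧ 2 ^ j ≤ sz (l + (corner j p + s))
      rw [e]
      exact ⟨h2.1, h2.2.1⟩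

/-- The eight corners. -/
def c0 (j : ℕ) (ε : Fin 3 → Bool) : K := fun i => if ε i then -2 ^ (j + 1) else 0

theorem N4_le (Q : Set K) (hQ : ∀ k ∈ Q, -k ∈ Q) (j : ℕ) (p s m m' : K) :
    N4 (shell Q j) (far Q j p) s m m' ≤
      ∑ ε, (cnt Q j ![c0 j ε, c0 j ε + s, c0 j ε - m, c0 j ε - m'] : ℝ≥0∞) := by
  unfold N4
  have h1 : ∀ ε, (cnt Q j ![c0 j ε, c0 j ε + s, c0 j ε - m, c0 j ε - m'] : ℝ≥0∞)
      = num {l | l + (-c0 j ε) ∈ cntSet Q j ![c0 j ε, c0 j ε + s, c0 j ε - m, c0 j ε - m']} := by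
    intro ε
    rw [num_shift, cnt_eq]
  simp_rw [h1]
  refine num_iUnion_le _ _ ?_
  rintro l ⟨hl, hls, hm, hm'⟩
  refine ⟨fun i => decide (l i < 0), ?_⟩
  set ε : Fin 3 → Bool := fun i => decide (l i < 0) with hε
  change l + -c0 j ε ∈ cntSet Q j _
  refine ⟨mem_bx.2 fun i => ?_, ?_⟩
  · have h2 := le_sz l i
    have h3 : (sz l : ℤ) < 2 ^ (j + 1) := by exact_mod_cast hl.2.2
    simp only [Pi.add_apply, Pi.neg_apply, c0, hε]
    have h4 := abs_le.1 h2
    by_cases hi : l i < 0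
    · simp only [hi, decide_true, if_true]
      constructor <;> linarith [h4.1, h4.2]
    · simp only [hi, decide_false, Bool.false_eq_true, if_false, neg_zero, add_zero]
      constructor <;> linarith [h4.1, h4.2]
  · have e : ∀ k ∈ far Q j p, -k ∈ Q ∧ 2 ^ j ≤ sz (-k) := fun k hk =>
      ⟨hQ _ hk.1, by rw [sz_neg]; exact hk.2.1⟩
    intro i
    fin_cases i
    · have e1 : l + -c0 j ε + c0 j ε = l := by abel
      change l + -c0 j ε + c0 j ε ∈ Q ∧ 2 ^ j ≤ sz (l + -c0 j ε + c0 j ε)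
      rw [e1]
      exact ⟨hl.1, hl.2.1⟩
    · have e1 : l + -c0 j ε + (c0 j ε + s) = l + s := by abel
      change l + -c0 j ε + (c0 j ε + s) ∈ Q ∧ 2 ^ j ≤ sz (l + -c0 j ε + (c0 j ε + s))
      rw [e1]
      exact ⟨hls.1, hls.2.1⟩
    · have e1 : l + -c0 j ε + (c0 j ε - m) = -(m - l) := by abel
      change l + -c0 j ε + (c0 j ε - m) ∈ Q ∧ 2 ^ j ≤ sz (l + -c0 j ε + (c0 j ε - m))
      rw [e1]
      exact e _ hm
    · have e1 : l + -c0 j ε + (c0 j ε - m') = -(m' - l) := by abel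
      change l + -c0 j ε + (c0 j ε - m') ∈ Q ∧ 2 ^ j ≤ sz (l + -c0 j ε + (c0 j ε - m'))
      rw [e1]
      exact e _ hm'

theorem inj4 {a b c d : K} (hab : a ≠ b) (hac : a ≠ c) (had : a ≠ d) (hbc : b ≠ c) (hbd : b ≠ d)
    (hcd : c ≠ d) : Function.Injective ![a, b, c, d] := by
  intro x y h
  fin_cases x <;> fin_cases y
  · rfl
  · exact absurd h hab
  · exact absurd h hac
  · exact absurd h had
  · exact absurd h hab.symm
  · rfl
  · exact absurd h hbc
  · exact absurd h hbd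
  · exact absurd h hac.symm
  · exact absurd h hbc.symm
  · rfl
  · exact absurd h hcd
  · exact absurd h had.symm
  · exact absurd h hbd.symm
  · exact absurd h hcd.symm
  · rfl

theorem count_est {A : ℝ} {Q : Set K} (hQ : ∀ k ∈ Q, -k ∈ Q) (hG : Good A Q) (j : ℕ)
    (p p' s : K) (hs : s ≠ 0) (m m' : K) (hm : m ∈ far Q j p') (hm' : m' ∈ far Q j p')
    (hms : m + s ∈ far Q j p') (hms' : m' + s ∈ far Q j p') (hmm : m ≠ m') :
    N4 (shell Q j) (far Q j p) s m m' * num {m | m ∈ far Q j p' ∧ m + s ∈ far Q j p'}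
      ≤ ENNReal.ofReal (8 * A ^ 2 * 16 ^ j) := by
  have h1 : ∀ ε, (cnt Q j ![c0 j ε, c0 j ε + s, c0 j ε - m, c0 j ε - m'] : ℝ≥0∞)
      * cnt Q j ![corner j p', corner j p' + s] ≤ ENNReal.ofReal (A ^ 2 * 16 ^ j) := by
    intro ε
    have h2 := hG j ![c0 j ε, c0 j ε + s, c0 j ε - m, c0 j ε - m'] (inj4 ?_ ?_ ?_ ?_ ?_ ?_)
      (corner j p') (corner j p' + s) (by
        change corner j p' + s - corner j p' = c0 j ε + s - c0 j ε
        abel)
    · rw [← ENNReal.ofReal_natCast, ← ENNReal.ofReal_natCast,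
        ← ENNReal.ofReal_mul (Nat.cast_nonneg _)]
      exact ENNReal.ofReal_le_ofReal h2
    · intro e
      exact hs (by simpa using e.symm)
    · intro e
      refine ne_zero_of_sz hm.2.1 ?_
      have : m = c0 j ε - (c0 j ε - m) := by abel
      rw [this, ← e]; abel
    · intro e
      refine ne_zero_of_sz hm'.2.1 ?_
      have : m' = c0 j ε - (c0 j ε - m') := by abel
      rw [this, ← e]; abel
    · intro e
      refine ne_zero_of_sz hms.2.1 ?_
      have : m + s = (c0 j ε + s) - (c0 j ε - m) := by abel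
      rw [this, ← e]; abel
    · intro e
      refine ne_zero_of_sz hms'.2.1 ?_
      have : m' + s = (c0 j ε + s) - (c0 j ε - m') := by abel
      rw [this, ← e]; abel
    · intro e
      exact hmm (by simpa using e)
  calc N4 (shell Q j) (far Q j p) s m m' * num {m | m ∈ far Q j p' ∧ m + s ∈ far Q j p'}
      ≤ (∑ ε, (cnt Q j ![c0 j ε, c0 j ε + s, c0 j ε - m, c0 j ε - m'] : ℝ≥0∞))
        * cnt Q j ![corner j p', corner j p' + s] := by
        gcongr
        · exact N4_le Q hQ j p s m m'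
        · exact num_far_le Q j p' s
    _ = ∑ ε, (cnt Q j ![c0 j ε, c0 j ε + s, c0 j ε - m, c0 j ε - m'] : ℝ≥0∞)
        * cnt Q j ![corner j p', corner j p' + s] := Finset.sum_mul _ _ _
    _ ≤ ∑ _ε : Fin 3 → Bool, ENNReal.ofReal (A ^ 2 * 16 ^ j) := Finset.sum_le_sum fun ε _ => h1 ε
    _ = ENNReal.ofReal (8 * A ^ 2 * 16 ^ j) := by
        have e8 : 8 * A ^ 2 * 16 ^ j = 8 * (A ^ 2 * 16 ^ j) := by ring
        rw [Finset.sum_const, Finset.card_univ, Fintype.card_fun, Fintype.card_bool,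
          Fintype.card_fin, nsmul_eq_mul, e8, ENNReal.ofReal_mul (by norm_num : (0 : ℝ) ≤ 8)]
        norm_num

theorem num_shell_le (Q : Set K) (j : ℕ) : num (shell Q j) ≤ ENNReal.ofReal (64 * 8 ^ j) := by
  classical
  set F : Finset K := Fintype.piFinset fun _ => Finset.Ico (-(2 : ℤ) ^ (j + 1)) (2 ^ (j + 1))
    with hF
  have h1 : shell Q j ⊆ (F : Set K) := by
    intro l hl
    rw [Finset.mem_coe, hF, Fintype.mem_piFinset]
    intro i
    have h2 := abs_le.1 (le_sz l i)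
    have h3 : (sz l : ℤ) < 2 ^ (j + 1) := by exact_mod_cast hl.2.2
    rw [Finset.mem_Ico]
    constructor <;> linarith [h2.1, h2.2]
  refine (num_mono h1).trans ?_
  rw [num_finite F.finite_toSet, Set.ncard_coe_finset, hF, Fintype.card_piFinset_const,
    Int.card_Ico]
  have e : ((2 : ℤ) ^ (j + 1) - -2 ^ (j + 1)).toNat = 4 * 2 ^ j := by
    have : ((2 : ℤ) ^ (j + 1) - -2 ^ (j + 1)) = ((4 * 2 ^ j : ℕ) : ℤ) := by
      push_cast; ring
    rw [this, Int.toNat_natCast]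
  rw [e, ← ENNReal.ofReal_natCast]
  refine ENNReal.ofReal_le_ofReal ?_
  push_cast
  have : (8 : ℝ) ^ j = (2 ^ j) ^ 3 := by
    rw [← pow_mul, mul_comm, pow_mul]; norm_num
  rw [this]
  apply le_of_eq
  ring

/-- The trilinear estimate at one scale. -/
theorem scale_est {A : ℝ} {Q : Set K} (hA : 1 ≤ A) (hQ : ∀ k ∈ Q, -k ∈ Q) (hG : Good A Q) (j : ℕ)
    (p p' : K) (a b c : K → ℝ≥0∞) (ha : ∀ k, k ∉ shell Q j → a k = 0)
    (hb : ∀ k, k ∉ far Q j p → b k = 0) (hc : ∀ k, k ∉ far Q j p' → c k = 0) :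
    (∑' l, ∑' k, a l * (b k * c (k + l))) ^ 2 ≤
      ENNReal.ofReal (10 * A * 4 ^ j) * (S2 a * S2 b * S2 c) := by
  have h := local_est a b c (shell Q j) (far Q j p) (far Q j p') _ _
    (ENNReal.ofReal (9 * A * 4 ^ j)) (ENNReal.ofReal_ne_top (r := 8 * A ^ 2 * 16 ^ j)) ha hb hc
    (num_shell_le Q j)
    (fun s hs m m' h1 h2 h3 h4 h5 => count_est hQ hG j p p' s hs m m' h1 h2 h3 h4 h5) ?_
  · refine h.trans ?_
    gcongr
    rw [← ENNReal.ofReal_one, ← ENNReal.ofReal_add zero_le_one (by positivity)]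
    refine ENNReal.ofReal_le_ofReal ?_
    have : (1 : ℝ) ≤ A * 4 ^ j := one_le_mul_of_one_le_of_one_le hA (one_le_pow₀ (by norm_num))
    linarith
  · rw [← ENNReal.ofReal_add (by positivity) (by positivity), ← ENNReal.ofReal_pow (by positivity)]
    refine ENNReal.ofReal_le_ofReal ?_
    have h1 : (8 : ℝ) ^ j ≤ 16 ^ j := by gcongr; norm_num
    have h2 : (4 : ℝ) ^ j * 4 ^ j = 16 ^ j := by rw [← mul_pow]; norm_num
    have h3 : (1 : ℝ) ≤ A ^ 2 := one_le_pow₀ hA
    have h4 : (0 : ℝ) < 16 ^ j := by positivity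
    have h5 : (9 * A * 4 ^ j) ^ 2 = 81 * A ^ 2 * 16 ^ j := by rw [← h2]; ring
    rw [h5]
    nlinarith [mul_le_mul_of_nonneg_right h3 h4.le]

end Pool.Agent.Y154.NS
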