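import Pool.Agent.Y6.Stm2
import Pool.Agent.H459R3.NS.Evo

/-!
Uniqueness of smooth periodic solutions of the Navier-Stokes equations with modes in a set.
-/

open MeasureTheory Set Filter Topology
open scoped ContDiff

set_option autoImplicit false

namespace Pool.Agent.Y154.NS.Uniq

open H459R3.NS

/-- the two definitions of the Fourier coefficients agree -/
theorem fc_fr (v : V → V) (k : K3) (i : Fin 3) :
    Pool.Agent.H356R3.NS.fc v k i = fr (fun x => v x i) k := by
  unfold Pool.Agent.H356R3.NS.fc fr fc cube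
  refine integral_congr_ae (Filter.Eventually.of_forall fun x => ?_)
  simp only [ee, ph]
  rw [mul_comm]
  congr 2
  push_cast
  simp only [Pi.neg_apply, Int.cast_neg, neg_mul, Finset.sum_neg_distrib, mul_neg]

/-- Parseval: a smooth periodic function and a continuous function without common frequencies are
orthogonal. -/
theorem int_zero {f g : V → ℝ} (hf : SP f) (hg : Continuous g)
    (h : ∀ k, fr f k = 0 ∨ fr g k = 0) : ∫ x in cube, f x * g x = 0 := by
  have hgc : Continuous (fun x => (g x : ℂ)) := Complex.continuous_ofReal.comp hg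
  have h1 := integral_S_mul (rap_fr hf).summable hgc
  have h2 : ∀ k, fr f k * ∫ x in cube, ee k x * (g x : ℂ) = 0 := by
    intro k
    rcases h k with h | h
    · rw [h, zero_mul]
    · have e : ∫ x in cube, ee k x * (g x : ℂ) = (starRingEnd ℂ) (fr g k) := by
        unfold fr fc
        rw [← integral_conj]
        congr 1
        funext x
        rw [map_mul, Complex.conj_ofReal, ← ee_neg, neg_neg]
      rw [e, h, map_zero, mul_zero]
  simp only [h2] at h1
  have h3 := h1.unique hasSum_zero
  have h4 : (∫ x in cube, S (fr f) x * (g x : ℂ)) = ((∫ x in cube, f x * g x : ℝ) : ℂ) := by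
    rw [← integral_complex_ofReal]
    congr 1
    funext x
    rw [S_fr hf]
    push_cast
    ring
  rw [h4] at h3
  exact_mod_cast h3

theorem sp_sub {f g : V → ℝ} (hf : SP f) (hg : SP g) : SP (fun x => f x - g x) where
  smooth := hf.smooth.sub hg.smooth
  per := fun i x => by simp only [hf.per i x, hg.per i x]

theorem pd_sub {f g : V → ℝ} (hf : SP f) (hg : SP g) (j : Fin 3) (x : V) :
    pd j (fun y => f y - g y) x = pd j f x - pd j g x := by
  unfold pd
  have h : HasFDerivAt (fun y => f y - g y) _ x := (hf.diff x).hasFDerivAt.sub (hg.diff x).hasFDerivAt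
  rw [h.fderiv]
  simp only [_root_.sub_apply]

theorem sp_zero_of {f : V → ℝ} (hf : SP f) (h : ∫ x in cube, f x ^ 2 = 0) (x : V) : f x = 0 := by
  have h1 := n2_fr hf
  rw [h] at h1
  rw [n2_sq] at h1
  have hs : Summable fun k => ‖fr f k‖ ^ 2 := summable_sq (rap_fr hf).summable
  have h2 : ∀ k, fr f k = 0 := by
    intro k
    have h3 : ‖fr f k‖ ^ 2 ≤ 0 := by
      rw [← h1]
      exact hs.le_tsum k fun l _ => by positivity
    have h4 : ‖fr f k‖ ^ 2 = 0 := le_antisymm h3 (by positivity)
    exact norm_eq_zero.1 (pow_eq_zero_iff two_ne_zero |>.1 h4)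
  have h5 := S_fr hf x
  unfold S at h5
  simp only [h2, zero_mul, tsum_zero] at h5
  exact_mod_cast h5.symm

/-- the estimate of the energy of the difference at a fixed time -/
theorem fixed {ν C : ℝ} (hν : 0 < ν) (hC : 0 ≤ C) {a b d : Fin 3 → V → ℝ} {p q : V → ℝ}
    (ha : ∀ i, SP (a i)) (hb : ∀ i, SP (b i)) (hp : SP p) (hq : SP q)
    (hda : ∀ x, ∑ i, pd i (a i) x = 0) (hdb : ∀ x, ∑ i, pd i (b i) x = 0)
    (hd : ∀ i, Continuous (d i))
    (hbC : ∀ i j, ∀ x ∈ cube, |pd j (b i) x| ≤ C)
    (hr : ∀ i, ∫ x in cube, (a i x - b i x) * (d i x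
      + ((∑ j, a j x * pd j (a i) x) - ∑ j, b j x * pd j (b i) x)
      - ν * (lap (a i) x - lap (b i) x) + (pd i p x - pd i q x)) = 0) :
    ∑ i, ∫ x in cube, (a i x - b i x) * d i x ≤ 3 * C * ∑ i, ∫ x in cube, (a i x - b i x) ^ 2 := by
  have hw : ∀ i, SP (fun x => a i x - b i x) := fun i => sp_sub (ha i) (hb i)
  have hdw : ∀ x, ∑ i, pd i (fun x => a i x - b i x) x = 0 := by
    intro x
    simp only [pd_sub (ha _) (hb _), Finset.sum_sub_distrib, hda, hdb, sub_zero]
  have hl : ∀ i x, lap (a i) x - lap (b i) x = lap (fun x => a i x - b i x) x := by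
    intro i x
    unfold lap
    rw [← Finset.sum_sub_distrib]
    refine Finset.sum_congr rfl fun j _ => ?_
    have e : pd j (fun x => a i x - b i x) = fun x => pd j (a i) x - pd j (b i) x :=
      funext fun x => pd_sub (ha i) (hb i) j x
    rw [e, pd_sub ((ha i).pd j) ((hb i).pd j)]
  have hpq : ∀ i x, pd i p x - pd i q x = pd i (fun x => p x - q x) x := fun i x => (pd_sub hp hq i x).symm
  have hcv : ∀ i x, (∑ j, a j x * pd j (a i) x) - ∑ j, b j x * pd j (b i) x
      = (∑ j, a j x * pd j (fun x => a i x - b i x) x) + ∑ j, (a j x - b j x) * pd j (b i) x := by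
    intro i x
    rw [← Finset.sum_sub_distrib, ← Finset.sum_add_distrib]
    refine Finset.sum_congr rfl fun j _ => ?_
    rw [pd_sub (ha i) (hb i)]
    ring
  -- the terms
  have t1 : ∑ i, ∫ x in cube, (a i x - b i x) * ∑ j, a j x * pd j (fun x => a i x - b i x) x = 0 := by
    refine Finset.sum_eq_zero fun i _ => ?_
    have h := transport_zero ha hda (hw i)
    rw [← h, ← integral_finsetSum _ fun j _ => ((ha j).mul ((hw i).mul ((hw i).pd j))).int]
    congr 1
    funext x
    rw [Finset.mul_sum]
    exact Finset.sum_congr rfl fun j _ => by ring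
  have t2 : ∑ i, ∫ x in cube, lap (fun x => a i x - b i x) x * (a i x - b i x) ≤ 0 := by
    refine Finset.sum_nonpos fun i _ => ?_
    rw [int_lap_mul (hw i) (hw i)]
    rw [neg_nonpos]
    refine Finset.sum_nonneg fun j _ => integral_nonneg fun x => mul_self_nonneg _
  have t3 : ∑ i, ∫ x in cube, (a i x - b i x) * pd i (fun x => p x - q x) x = 0 :=
    int_press hw hdw (sp_sub hp hq)
  have t4 : ∀ i, ∫ x in cube, (a i x - b i x) * d i x
      = -(∫ x in cube, (a i x - b i x) * ∑ j, a j x * pd j (fun x => a i x - b i x) x)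
        - (∫ x in cube, (a i x - b i x) * ∑ j, (a j x - b j x) * pd j (b i) x)
        + ν * (∫ x in cube, lap (fun x => a i x - b i x) x * (a i x - b i x))
        - ∫ x in cube, (a i x - b i x) * pd i (fun x => p x - q x) x := by
    intro i
    have h := hr i
    simp only [hl, hpq, hcv] at h
    have i1 : IntegrableOn (fun x => (a i x - b i x) * d i x) cube :=
      integrableOn_cube ((hw i).cont.mul (hd i))
    have i2 : IntegrableOn (fun x => (a i x - b i x) * ∑ j, a j x * pd j (fun x => a i x - b i x) x) cube :=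
      ((hw i).mul (SP.sum fun j _ => (ha j).mul ((hw i).pd j))).int
    have i3 : IntegrableOn (fun x => (a i x - b i x) * ∑ j, (a j x - b j x) * pd j (b i) x) cube :=
      ((hw i).mul (SP.sum fun j _ => (hw j).mul ((hb i).pd j))).int
    have i4 : IntegrableOn (fun x => ν * (lap (fun x => a i x - b i x) x * (a i x - b i x))) cube :=
      ((hw i).lap.mul (hw i)).int.const_mul ν
    have i5 : IntegrableOn (fun x => (a i x - b i x) * pd i (fun x => p x - q x) x) cube :=
      ((hw i).mul ((sp_sub hp hq).pd i)).int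
    have e : ∀ x, (a i x - b i x) * (d i x
        + ((∑ j, a j x * pd j (fun x => a i x - b i x) x) + ∑ j, (a j x - b j x) * pd j (b i) x)
        - ν * lap (fun x => a i x - b i x) x + pd i (fun x => p x - q x) x)
        = ((((a i x - b i x) * d i x + (a i x - b i x) * ∑ j, a j x * pd j (fun x => a i x - b i x) x)
        + (a i x - b i x) * ∑ j, (a j x - b j x) * pd j (b i) x)
        - ν * (lap (fun x => a i x - b i x) x * (a i x - b i x)))
        + (a i x - b i x) * pd i (fun x => p x - q x) x := by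
      intro x; ring
    simp only [e] at h
    have i12 : IntegrableOn (fun x => (a i x - b i x) * d i x
      + (a i x - b i x) * ∑ j, a j x * pd j (fun x => a i x - b i x) x) cube := i1.add i2
    have i123 : IntegrableOn (fun x => ((a i x - b i x) * d i x
      + (a i x - b i x) * ∑ j, a j x * pd j (fun x => a i x - b i x) x)
      + (a i x - b i x) * ∑ j, (a j x - b j x) * pd j (b i) x) cube := i12.add i3
    have i1234 : IntegrableOn (fun x => (((a i x - b i x) * d i x
      + (a i x - b i x) * ∑ j, a j x * pd j (fun x => a i x - b i x) x)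
      + (a i x - b i x) * ∑ j, (a j x - b j x) * pd j (b i) x)
      - ν * (lap (fun x => a i x - b i x) x * (a i x - b i x))) cube := i123.sub i4
    rw [integral_add i1234 i5, integral_sub i123 i4, integral_add i12 i3, integral_add i1 i2,
      integral_const_mul] at h
    linarith
  have t5 : -(∑ i, ∫ x in cube, (a i x - b i x) * ∑ j, (a j x - b j x) * pd j (b i) x)
      ≤ 3 * C * ∑ i, ∫ x in cube, (a i x - b i x) ^ 2 := by
    have e1 : ∀ i j, IntegrableOn (fun x => (a i x - b i x) * ((a j x - b j x) * pd j (b i) x)) cube :=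
      fun i j => ((hw i).mul ((hw j).mul ((hb i).pd j))).int
    have e2 : ∀ i, ∫ x in cube, (a i x - b i x) * ∑ j, (a j x - b j x) * pd j (b i) x
        = ∑ j, ∫ x in cube, (a i x - b i x) * ((a j x - b j x) * pd j (b i) x) := by
      intro i
      rw [← integral_finsetSum _ fun j _ => e1 i j]
      congr 1
      funext x
      rw [Finset.mul_sum]
    have e3 : ∀ i, IntegrableOn (fun x => (a i x - b i x) ^ 2) cube := fun i => by
      have := ((hw i).mul (hw i)).int
      simpa only [sq] using this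
    have e4 : ∀ i j, -(∫ x in cube, (a i x - b i x) * ((a j x - b j x) * pd j (b i) x))
        ≤ C / 2 * (∫ x in cube, (a i x - b i x) ^ 2) + C / 2 * ∫ x in cube, (a j x - b j x) ^ 2 := by
      intro i j
      rw [← integral_neg, ← integral_const_mul, ← integral_const_mul,
        ← integral_add ((e3 i).const_mul _) ((e3 j).const_mul _)]
      refine setIntegral_mono_on (e1 i j).neg (((e3 i).const_mul _).add ((e3 j).const_mul _))
        measurableSet_Icc fun x hx => ?_
      have hb1 := hbC i j x hx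
      have hb2 : -((a i x - b i x) * ((a j x - b j x) * pd j (b i) x))
          ≤ |a i x - b i x| * (|a j x - b j x| * C) := by
        refine (neg_le_abs _).trans ?_
        rw [abs_mul, abs_mul]
        gcongr
      refine hb2.trans ?_
      have h1 : 0 ≤ C * (|a i x - b i x| - |a j x - b j x|) ^ 2 := by positivity
      have h2 := sq_abs (a i x - b i x)
      have h3 := sq_abs (a j x - b j x)
      rw [← h2, ← h3]
      nlinarith
    simp only [e2]
    rw [← Finset.sum_neg_distrib]
    calc ∑ i, -(∑ j, ∫ x in cube, (a i x - b i x) * ((a j x - b j x) * pd j (b i) x))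
        = ∑ i, ∑ j, -(∫ x in cube, (a i x - b i x) * ((a j x - b j x) * pd j (b i) x)) := by
          simp only [Finset.sum_neg_distrib]
      _ ≤ ∑ i : Fin 3, ∑ j : Fin 3, (C / 2 * (∫ x in cube, (a i x - b i x) ^ 2)
          + C / 2 * ∫ x in cube, (a j x - b j x) ^ 2) := by
          gcongr with i _ j _
          exact e4 i j
      _ = 3 * C * ∑ i, ∫ x in cube, (a i x - b i x) ^ 2 := by
          simp only [Fin.sum_univ_three]; ring
  have t6 : ∑ i, ∫ x in cube, (a i x - b i x) * d i x
      = -(∑ i, ∫ x in cube, (a i x - b i x) * ∑ j, a j x * pd j (fun x => a i x - b i x) x)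
        - (∑ i, ∫ x in cube, (a i x - b i x) * ∑ j, (a j x - b j x) * pd j (b i) x)
        + ν * (∑ i, ∫ x in cube, lap (fun x => a i x - b i x) x * (a i x - b i x))
        - ∑ i, ∫ x in cube, (a i x - b i x) * pd i (fun x => p x - q x) x := by
    simp only [t4, Finset.sum_add_distrib, Finset.sum_sub_distrib, Finset.sum_neg_distrib,
      Finset.mul_sum]
  rw [t6, t1, t3]
  have := mul_nonpos_of_nonneg_of_nonpos hν.le t2
  linarith

section sol

variable {Q : Set K3} {ν : ℝ} {v : V → V} {U : ℝ → V → V} {P : ℝ → V → ℝ}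

theorem smooth_c (h : Pool.Agent.Y6.DecSol Q ν v U P) (T : ℝ) (i : Fin 3) :
    ContDiffOn ℝ ∞ (fun z : ℝ × V => U z.1 z.2 i) (Ico 0 T ×ˢ univ) := by
  have h1 := contDiffOn_pi.1 h.smooth_u i
  exact h1.mono (prod_mono (fun s hs => hs.1) subset_rfl)

theorem sp_u (h : Pool.Agent.Y6.DecSol Q ν v U P) {t : ℝ} (ht : 0 ≤ t) (i : Fin 3) :
    SP (fun x => U t x i) where
  smooth := contDiff_slice (f := fun s x => U s x i) (smooth_c h (t + 1) i) ⟨ht, by linarith⟩
  per := fun j x => by
    have := h.periodic_u t ht x j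
    simp only [this]

theorem sp_p (h : Pool.Agent.Y6.DecSol Q ν v U P) {t : ℝ} (ht : 0 ≤ t) : SP (P t) where
  smooth := contDiff_slice (T := t + 1) (h.smooth_p.mono (prod_mono (fun s hs => hs.1) subset_rfl))
    ⟨ht, by linarith⟩
  per := fun j x => h.periodic_p t ht x j

/-- the residual -/
noncomputable def res (ν : ℝ) (U : ℝ → V → V) (P : ℝ → V → ℝ) (t : ℝ) (i : Fin 3) (x : V) : ℝ :=
  dt (fun s y => U s y i) t x + (∑ j, U t x j * pd j (fun y => U t y i) x)
    - ν * lap (fun y => U t y i) x + pd i (P t) x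

theorem fr_res (h : Pool.Agent.Y6.DecSol Q ν v U P) {t : ℝ} (ht : 0 < t) {k : K3} (hk : k ∈ Q)
    (i : Fin 3) : fr (res ν U P t i) k = 0 := by
  have h1 := congrFun (h.momentum t ht.le k hk) i
  rw [fc_fr] at h1
  refine Eq.trans ?_ h1
  congr 1
  funext x
  unfold res dt
  rw [derivWithin_of_mem_nhds (Ici_mem_nhds ht)]
  rfl

theorem cont_dt (h : Pool.Agent.Y6.DecSol Q ν v U P) {t : ℝ} (ht : 0 < t) (i : Fin 3) :
    Continuous (dt (fun s y => U s y i) t) :=
  (contDiff_dt (f := fun s x => U s x i) (smooth_c h (t + 1) i) ⟨ht, by linarith⟩).continuous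

theorem cont_res (h : Pool.Agent.Y6.DecSol Q ν v U P) {t : ℝ} (ht : 0 < t) (i : Fin 3) :
    Continuous (res ν U P t i) := by
  have h1 := cont_dt h ht i
  have h2 : Continuous (fun x => ∑ j, U t x j * pd j (fun y => U t y i) x) :=
    (SP.sum fun j _ => (sp_u h ht.le j).mul ((sp_u h ht.le i).pd j)).cont
  have h3 : Continuous (lap (fun y => U t y i)) := (sp_u h ht.le i).lap.cont
  have h4 : Continuous (pd i (P t)) := ((sp_p h ht.le).pd i).cont
  exact ((h1.add h2).sub (h3.const_mul ν)).add h4

theorem fr_modes (h : Pool.Agent.Y6.DecSol Q ν v U P) {t : ℝ} (ht : 0 ≤ t) {k : K3} (hk : k ∉ Q)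
    (i : Fin 3) : fr (fun x => U t x i) k = 0 := by
  have h1 := congrFun (h.modes t ht k hk) i
  rw [fc_fr] at h1
  exact h1

theorem fr_sub {f g : V → ℝ} (hf : Continuous f) (hg : Continuous g) (k : K3) :
    fr (fun x => f x - g x) k = fr f k - fr g k := by
  unfold fr fc
  have e : ∀ x, ee (-k) x * ((f x - g x : ℝ) : ℂ) = ee (-k) x * (f x : ℂ) - ee (-k) x * (g x : ℂ) := by
    intro x; push_cast; ring
  simp only [e]
  exact integral_sub
    (integrableOn_cube ((ee_continuous _).mul (Complex.continuous_ofReal.comp hf)))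
    (integrableOn_cube ((ee_continuous _).mul (Complex.continuous_ofReal.comp hg)))

variable {U' : ℝ → V → V} {P' : ℝ → V → ℝ}

/-- the squared norm of the difference -/
noncomputable def en (U U' : ℝ → V → V) (t : ℝ) : ℝ := ∑ i, ∫ x in cube, (U t x i - U' t x i) ^ 2

theorem en_nonneg (U U' : ℝ → V → V) (t : ℝ) : 0 ≤ en U U' t :=
  Finset.sum_nonneg fun i _ => integral_nonneg fun x => by positivity

theorem smooth_d (h : Pool.Agent.Y6.DecSol Q ν v U P) (h' : Pool.Agent.Y6.DecSol Q ν v U' P') (T : ℝ)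
    (i : Fin 3) :
    ContDiffOn ℝ ∞ (fun z : ℝ × V => (fun s x => U s x i - U' s x i) z.1 z.2) (Ico 0 T ×ˢ univ) :=
  (smooth_c h T i).sub (smooth_c h' T i)

theorem en_cont (h : Pool.Agent.Y6.DecSol Q ν v U P) (h' : Pool.Agent.Y6.DecSol Q ν v U' P') (T : ℝ) :
    ContinuousOn (en U U') (Ico 0 T) := by
  unfold en
  refine continuousOn_finsetSum _ fun i _ => ?_
  exact continuousOn_int (F := fun s x => (U s x i - U' s x i) ^ 2)
    ((smooth_d h h' T i).continuousOn.pow 2)

theorem en_deriv (h : Pool.Agent.Y6.DecSol Q ν v U P) (h' : Pool.Agent.Y6.DecSol Q ν v U' P') {T t : ℝ}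
    (ht : t ∈ Ioo 0 T) :
    HasDerivAt (en U U') (2 * ∑ i, ∫ x in cube, (U t x i - U' t x i) *
      (dt (fun s y => U s y i) t x - dt (fun s y => U' s y i) t x)) t := by
  rw [Finset.mul_sum]
  refine HasDerivAt.fun_sum fun i _ => ?_
  have hF : ContDiffOn ℝ 1 (fun z : ℝ × V => (U z.1 z.2 i - U' z.1 z.2 i) ^ 2) (Ioo 0 T ×ˢ univ) :=
    (mono_Ioo (f := fun s x => U s x i - U' s x i) (smooth_d h h' T i) (by norm_cast)).pow 2
  have key := hasDerivAt_int (F := fun s x => (U s x i - U' s x i) ^ 2) hF ht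
  refine key.congr_deriv ?_
  rw [← integral_const_mul]
  congr 1
  funext x
  have h1 : HasDerivAt (fun s => U s x i) (dt (fun s y => U s y i) t x) t := by
    have := hasDerivAt_slice (F := fun s y => U s y i)
      (mono_Ioo (f := fun s y => U s y i) (smooth_c h T i) (by norm_cast)) ht x
    rwa [← dt_eq (f := fun s y => U s y i) (smooth_c h T i) ht x] at this
  have h2 : HasDerivAt (fun s => U' s x i) (dt (fun s y => U' s y i) t x) t := by
    have := hasDerivAt_slice (F := fun s y => U' s y i)
      (mono_Ioo (f := fun s y => U' s y i) (smooth_c h' T i) (by norm_cast)) ht x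
    rwa [← dt_eq (f := fun s y => U' s y i) (smooth_c h' T i) ht x] at this
  have h3 : HasDerivAt (fun s => (U s x i - U' s x i) ^ 2) _ t := (h1.sub h2).pow 2
  rw [h3.deriv]
  simp only [Pi.sub_apply]
  push_cast
  ring

theorem bound (h' : Pool.Agent.Y6.DecSol Q ν v U' P') (T : ℝ) :
    ∃ C, 0 ≤ C ∧ ∀ t ∈ Icc 0 T, ∀ i j, ∀ x ∈ cube, |pd j (fun y => U' t y i) x| ≤ C := by
  have h1 : ∀ i j, ∃ C, ∀ t ∈ Icc 0 T, ∀ x ∈ cube, |pd j (fun y => U' t y i) x| ≤ C := by
    intro i j
    have hK : IsCompact (Icc 0 T ×ˢ cube) := isCompact_Icc.prod isCompact_Icc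
    have hsub : Icc 0 T ×ˢ cube ⊆ Ico 0 (T + 1) ×ˢ (univ : Set V) :=
      prod_mono (fun s hs => ⟨hs.1, by linarith [hs.2]⟩) (subset_univ _)
    have hc := contDiffOn_pd (f := fun s x => U' s x i) (smooth_c h' (T + 1) i) j
    obtain ⟨C, hC⟩ := hK.exists_bound_of_continuousOn (hc.continuousOn.mono hsub)
    exact ⟨C, fun t ht x hx => hC (t, x) ⟨ht, hx⟩⟩
  choose C hC using h1
  refine ⟨∑ i, ∑ j, |C i j|, by positivity, fun t ht i j x hx => ?_⟩
  refine (hC i j t ht x hx).trans ((le_abs_self _).trans ?_)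
  calc |C i j| ≤ ∑ j, |C i j| :=
        Finset.single_le_sum (f := fun j => |C i j|) (fun _ _ => abs_nonneg _) (Finset.mem_univ j)
    _ ≤ _ := Finset.single_le_sum (f := fun i => ∑ j, |C i j|)
        (fun _ _ => Finset.sum_nonneg fun _ _ => abs_nonneg _) (Finset.mem_univ i)

theorem en_zero (hν : 0 < ν) (h : Pool.Agent.Y6.DecSol Q ν v U P)
    (h' : Pool.Agent.Y6.DecSol Q ν v U' P') {t : ℝ} (ht : 0 ≤ t) : en U U' t = 0 := by
  obtain ⟨C, hC0, hC⟩ := bound h' t
  have h0 : en U U' 0 = 0 := by
    unfold en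
    simp [h.initial, h'.initial]
  have hcont : ContinuousOn (en U U') (Icc 0 t) :=
    (en_cont h h' (t + 1)).mono fun s hs => ⟨hs.1, by linarith [hs.2]⟩
  have hder : ∀ s ∈ Ioo 0 t, ∃ D, HasDerivAt (en U U') D s ∧ D ≤ 6 * C * en U U' s := by
    intro s hs
    refine ⟨_, en_deriv h h' (T := t) hs, ?_⟩
    have key := fixed (ν := ν) (C := C) hν hC0 (a := fun i x => U s x i) (b := fun i x => U' s x i)
      (d := fun i x => dt (fun s y => U s y i) s x - dt (fun s y => U' s y i) s x)
      (p := P s) (q := P' s) (fun i => sp_u h hs.1.le i) (fun i => sp_u h' hs.1.le i)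
      (sp_p h hs.1.le) (sp_p h' hs.1.le) (h.divFree s hs.1.le) (h'.divFree s hs.1.le)
      (fun i => (cont_dt h hs.1 i).sub (cont_dt h' hs.1 i))
      (fun i j x hx => hC s ⟨hs.1.le, hs.2.le⟩ i j x hx) (fun i => ?_)
    · unfold en
      linarith
    · have e := int_zero (f := fun x => U s x i - U' s x i)
        (g := fun x => res ν U P s i x - res ν U' P' s i x)
        (sp_sub (sp_u h hs.1.le i) (sp_u h' hs.1.le i))
        ((cont_res h hs.1 i).sub (cont_res h' hs.1 i)) (fun k => ?_)
      · rw [← e]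
        congr 1
        funext x
        unfold res
        ring
      · by_cases hk : k ∈ Q
        · right
          rw [fr_sub (cont_res h hs.1 i) (cont_res h' hs.1 i), fr_res h hs.1 hk, fr_res h' hs.1 hk,
            sub_zero]
        · left
          rw [fr_sub (sp_u h hs.1.le i).cont (sp_u h' hs.1.le i).cont, fr_modes h hs.1.le hk,
            fr_modes h' hs.1.le hk, sub_zero]
  choose! D hD1 hD2 using hder
  have hanti : AntitoneOn (fun s => Real.exp (-(6 * C) * s) * en U U' s) (Icc 0 t) := by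
    refine antitoneOn_of_deriv_nonpos (convex_Icc 0 t) ?_ ?_ ?_
    · exact ContinuousOn.mul (by fun_prop) hcont
    · intro s hs
      rw [interior_Icc] at hs
      refine DifferentiableAt.differentiableWithinAt ?_
      exact DifferentiableAt.mul (by fun_prop) (hD1 s hs).differentiableAt
    · intro s hs
      rw [interior_Icc] at hs
      have e1 : HasDerivAt (fun s => Real.exp (-(6 * C) * s)) (Real.exp (-(6 * C) * s) * (-(6 * C))) s := by
        have := ((hasDerivAt_id s).const_mul (-(6 * C))).exp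
        simpa using this
      have e0 : HasDerivAt (fun s => Real.exp (-(6 * C) * s) * en U U' s) _ s := e1.mul (hD1 s hs)
      rw [e0.deriv]
      have e2 := hD2 s hs
      have e3 := Real.exp_pos (-(6 * C) * s)
      nlinarith
  have h1 := hanti (left_mem_Icc.2 ht) (right_mem_Icc.2 ht) ht
  simp only [h0, mul_zero] at h1
  have h2 := Real.exp_pos (-(6 * C) * t)
  have h3 := en_nonneg U U' t
  by_contra hne
  have h4 : 0 < en U U' t := lt_of_le_of_ne h3 (Ne.symm hne)
  have h5 := mul_pos h2 h4
  linarith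

end sol

end Pool.Agent.Y154.NS.Uniq

namespace Pool.Agent.Y154.NS

open H459R3.NS Uniq

theorem t_uniq : Pool.Agent.Y6.St_uniq := by
  intro ν Q v U U' P P' hν h h' t ht
  have h0 := en_zero hν h h' ht
  have h1 : ∀ i, ∫ x in cube, (U t x i - U' t x i) ^ 2 = 0 := by
    intro i
    exact (Finset.sum_eq_zero_iff_of_nonneg fun i _ => integral_nonneg fun x => by positivity).1 h0 i
      (Finset.mem_univ i)
  funext x i
  have h2 := sp_zero_of (sp_sub (sp_u h ht i) (sp_u h' ht i)) (h1 i) x
  linarith

end Pool.Agent.Y154.NS
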